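import Pool.Agent.Lib.H65D.Segment
import Pool.Agent.Lib.H76.Pump.Sub

/-!
# Thin covers of Schreier graphs
-/

set_option autoImplicit false

namespace Pool.Agent.Lib.H65D

open Pool.Agent.Lib.Helper67.BN (ball orbitBall ball_mono one_mem_ball ball_mul ball_inv finite_T
  orbitBall_mono mem_orbitBall_self mem_ball_succ ball_finite)
open Pool.Agent.H76.Pump (SChain OB E0 E0_smul E0_finiteIndex theoremBC NoFreeSemigroup
  noFreeSemigroup_of_subexp)

universe u v

/-- A cover of multiplicity at most two by sets of at most `b` points, such that every ball of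
radius `r` lies in one of the sets. -/
def ThinCover {E : Type u} [Group E] {V : Type v} (π : E →* Equiv.Perm V) (S : Set E)
    (r b : ℕ) : Prop :=
  ∃ 𝒲 : Set (Set V), (∀ W ∈ 𝒲, W.Finite ∧ W.ncard ≤ b) ∧
    (∀ x, {W | W ∈ 𝒲 ∧ x ∈ W}.encard ≤ 2) ∧ ∀ x, ∃ W ∈ 𝒲, orbitBall π S x r ⊆ W

theorem ThinCover.mono {E : Type u} [Group E] {V : Type v} {π : E →* Equiv.Perm V} {S T : Set E}
    {r r' b : ℕ} (h : ThinCover π S r b) (hST : ball T r' ⊆ ball S r) : ThinCover π T r' b := by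
  obtain ⟨𝒲, h1, h2, h3⟩ := h
  refine ⟨𝒲, h1, h2, fun x => ?_⟩
  obtain ⟨W, hW, h4⟩ := h3 x
  refine ⟨W, hW, fun y hy => h4 ?_⟩
  obtain ⟨g, hg, rfl⟩ := hy
  exact ⟨g, hST hg, rfl⟩

theorem exists_scale {E : Type u} [Group E] {S T : Set E} (hTf : T.Finite)
    (hS : Subgroup.closure S = ⊤) : ∃ m : ℕ, ∀ n, ball T n ⊆ ball S (m * n) := by
  choose m hm using fun g : E => exists_mem_ball hS g
  obtain ⟨M, hM⟩ := ((finite_T hTf).image m).bddAbove
  refine ⟨M, fun n => ?_⟩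
  induction n with
  | zero =>
    intro g hg
    rw [Pool.Agent.Lib.Helper67.BN.ball_zero] at hg
    obtain rfl : g = 1 := hg
    exact one_mem_ball S _
  | succ n ih =>
    intro g hg
    rcases mem_ball_succ.1 hg with hg | ⟨s, k, hs, hk, rfl⟩
    · exact ball_mono (Nat.mul_le_mul_left M (Nat.le_succ n)) (ih hg)
    · have h1 : s ∈ ball S M := ball_mono (hM ⟨s, hs, rfl⟩) (hm s)
      refine ball_mono (le_of_eq ?_) (ball_mul h1 (ih hk))
      ring

/-- Either the orbits of thin actions are bounded or there are long chains of cuts. -/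
theorem bounded_or_chains (E : Type u) [Group E] [Group.IsFinitelyPresented E] {S : Set E}
    (hSf : S.Finite) (hS : Subgroup.closure S = ⊤) : ∃ r : ℕ, ∀ b : ℕ,
    (∃ N : ℕ, ∀ (V : Type v) (π : E →* Equiv.Perm V), ThinCover π S r b → ∀ x,
      (Set.range fun g => π g x).Finite ∧ (Set.range fun g => π g x).ncard ≤ N) ∨
    ∀ N : ℕ, ∃ (H : Subgroup E) (A : Fin N → Set (E ⧸ H)),
      Pool.Agent.Lib.H31.Ends.IsCutChain S b N A := by
  obtain ⟨r, _, h⟩ := exists_liftData.{u, v} hSf hS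
  refine ⟨2 * r, fun b => ?_⟩
  by_cases hc : ∀ N : ℕ, ∃ (H : Subgroup E) (A : Fin N → Set (E ⧸ H)),
      Pool.Agent.Lib.H31.Ends.IsCutChain S b N A
  · exact Or.inr hc
  left
  push Not at hc
  obtain ⟨L, hL⟩ := hc
  refine ⟨(ball S (L * (r * b + 1) + r * b)).ncard, fun V π hV x => ?_⟩
  obtain ⟨𝒲, h1, h2, h3⟩ := hV
  obtain ⟨f, hf⟩ := exists_pieces h1 h2 h3
  obtain ⟨Θ, hΘ⟩ := h V π b f hf
  by_contra hcon
  obtain ⟨g, hg⟩ := hΘ.exists_long hSf hS x L hcon
  obtain ⟨H, A, hA⟩ := hΘ.cutChain x hg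
  exact hL H A hA

/-- No exponential growth. -/
theorem not_exp {E : Type u} [Group E] {S : Set E} (hSf : S.Finite)
    (hS : Subgroup.closure S = ⊤)
    (hsub : ∀ c : ℝ, 0 < c → ∃ n : ℕ, ((ball S n).ncard : ℝ) < Real.exp (c * n))
    {ℓ m d : ℕ} (h1 : m ≤ ℓ * d) (h2 : 1 ≤ ℓ * d) :
    ¬ ∀ k : ℕ, 2 ^ k ≤ (ball S (k * ℓ * d + m)).ncard := by
  intro hk
  have hcard : ∀ n, 2 ^ (n / (2 * (ℓ * d))) ≤ (ball S n).ncard := by
    intro n
    rcases Nat.eq_zero_or_pos (n / (2 * (ℓ * d))) with h0 | h0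
    · rw [h0, pow_zero, Nat.one_le_iff_ne_zero, Ne, Set.ncard_eq_zero (ball_finite hSf _)]
      intro h3
      have h4 := one_mem_ball S n
      rw [h3] at h4
      exact h4
    · refine (hk _).trans (Set.ncard_le_ncard (ball_mono ?_) (ball_finite hSf _))
      have h3 := Nat.div_mul_le_self n (2 * (ℓ * d))
      obtain ⟨q, hq⟩ : ∃ q, q = n / (2 * (ℓ * d)) := ⟨_, rfl⟩
      rw [← hq] at h0 h3 ⊢
      have h4 : 1 * (ℓ * d) ≤ q * (ℓ * d) := Nat.mul_le_mul_right _ h0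
      have h5 : q * (2 * (ℓ * d)) = q * ℓ * d + q * (ℓ * d) := by ring
      omega
  have hone : ∀ n, 1 ≤ n → 2 ≤ (ball S n).ncard := by
    intro n hn
    have h3 : ∃ s ∈ S, s ≠ 1 := by
      by_contra hcon
      push Not at hcon
      have h4 : Subgroup.closure S ≤ ⊥ := by
        rw [Subgroup.closure_le]
        intro s hs
        exact Subgroup.mem_bot.2 (hcon s hs)
      rw [hS] at h4
      have h5 : ∀ g : E, g = 1 := fun g => Subgroup.mem_bot.1 (h4 (Subgroup.mem_top g))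
      have h6 := hk 1
      have h7 : ball S (1 * ℓ * d + m) ⊆ {1} := fun g _ => h5 g
      have h8 := Set.ncard_le_ncard h7 (Set.finite_singleton _)
      rw [Set.ncard_singleton] at h8
      omega
    obtain ⟨s, hs, hs1⟩ := h3
    have h4 : ({s, 1} : Set E) ⊆ ball S n := by
      rintro x (rfl | rfl)
      · exact ⟨[x], by simpa using hn, by simpa using Or.inl hs, by simp⟩
      · exact one_mem_ball S n
    have h5 := Set.ncard_le_ncard h4 (ball_finite hSf n)
    rwa [Set.ncard_pair hs1] at h5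
  obtain ⟨c, hc, h3⟩ := Pool.Agent.Lib.Helper67.BA.exp_bound
    (N := fun n => (ball S n).ncard) (D := 2 * (ℓ * d)) (by omega) hcard hone
  obtain ⟨n, hn⟩ := hsub c hc
  exact absurd (h3 n) (not_le.2 hn)

/-- Subexponential growth: thin actions are virtually abelian, uniformly. -/
theorem commute_of_thin (E : Type u) [Group E] [Group.IsFinitelyPresented E] {S : Set E}
    (hSf : S.Finite) (hS : Subgroup.closure S = ⊤)
    (hsub : ∀ c : ℝ, 0 < c → ∃ n : ℕ, ((ball S n).ncard : ℝ) < Real.exp (c * n)) :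
    ∃ r : ℕ, ∀ b : ℕ, ∃ A : Subgroup E, A.FiniteIndex ∧
      ∀ (V : Type v) (π : E →* Equiv.Perm V), ThinCover π S r b → ∀ g ∈ A, ∀ h ∈ A, ∀ x,
        π (g * h) x = π (h * g) x := by
  have hfg : Group.FG E := Group.fg_iff.2 ⟨S, hS, hSf⟩
  obtain ⟨r, _, hr⟩ := exists_liftData.{u, v} hSf hS
  obtain ⟨D, hD⟩ := theoremBC.{u, v} E (noFreeSemigroup_of_subexp hSf hS hsub) hSf hS
  refine ⟨2 * r, fun b => ?_⟩
  obtain ⟨N, ρ, A, hA, hB⟩ := hD (2 * b)
  obtain ⟨ℓ, hℓ⟩ : ∃ ℓ, ℓ = 2 * (ρ + 1 + N * (D + 1)) := ⟨_, rfl⟩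
  have hQ1 : r * b ≤ ℓ * (r * b + 1) := by
    calc r * b ≤ r * b + 1 := Nat.le_succ _
      _ = 1 * (r * b + 1) := (one_mul _).symm
      _ ≤ ℓ * (r * b + 1) := Nat.mul_le_mul_right _ (by omega)
  have hQ2 : 1 ≤ ℓ * (r * b + 1) := Nat.mul_pos (by omega) (by omega)
  have hgrow := not_exp hSf hS hsub hQ1 hQ2
  have hE0 := E0_finiteIndex hfg (ball S ((ℓ - 1) * (r * b + 1) + r * b)).ncard
  have hAc : A.normalCore.FiniteIndex := inferInstance
  refine ⟨A.normalCore ⊓ E0 E (ball S ((ℓ - 1) * (r * b + 1) + r * b)).ncard, inferInstance, ?_⟩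
  rintro V π ⟨𝒲, h1, h2, h3⟩ g ⟨hg1, hg2⟩ k ⟨hk1, hk2⟩ x
  obtain ⟨f, hf⟩ := exists_pieces h1 h2 h3
  obtain ⟨Θ, hΘ⟩ := hr V π b f hf
  by_cases hlong : ∃ g, ℓ + 1 ≤ (Θ g (base f x)).st.length
  · -- a long path
    rcases hΘ.segment_or hSf hS x (by omega) hlong with ⟨n0, u, h4, h5, h6, h7⟩ | h4
    · rw [hℓ] at h6
      obtain ⟨g0, F, hF1, hF2, hF3⟩ := hΘ.chain_of_segment hS x D N ρ n0 h4 h5 h6 h7
      let _ : MulAction E (Lift f) := MulAction.compHom (Lift f) Θ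
      rcases hB (Lift f) (Θ g0 (base f x)) F hF1 hF2 with h8 | h8
      · exact absurd h8 hF3
      · have hbase : Θ g0⁻¹ (Θ g0 (base f x)) = base f x := LiftData.inv_apply' Θ g0 _
        have hconj : ∀ a, a ∈ A.normalCore → g0 * a * g0⁻¹ ∈ A := by
          intro a ha
          exact A.normalCore_le ((inferInstance : A.normalCore.Normal).conj_mem a ha g0)
        have h9 : Θ ((g0 * g * g0⁻¹) * (g0 * k * g0⁻¹)) (Θ g0 (base f x)) =
            Θ ((g0 * k * g0⁻¹) * (g0 * g * g0⁻¹)) (Θ g0 (base f x)) :=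
          h8 _ (hconj g hg1) _ (hconj k hk1)
        have h10 : ∀ a c : E, Θ ((g0 * a * g0⁻¹) * (g0 * c * g0⁻¹)) (Θ g0 (base f x)) =
            Θ g0 (Θ (a * c) (base f x)) := by
          intro a c
          rw [← Equiv.Perm.mul_apply, ← Equiv.Perm.mul_apply, ← map_mul, ← map_mul]
          congr 2
          group
        rw [h10, h10] at h9
        have h11 := congrArg Lift.pt ((Θ g0).injective h9)
        rw [hΘ.pt, hΘ.pt] at h11
        exact h11
    · exact absurd h4 hgrow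
  · -- short paths
    have hsmall : (Set.range fun g => π g x).Finite ∧ (Set.range fun g => π g x).ncard ≤
        (ball S ((ℓ - 1) * (r * b + 1) + r * b)).ncard := by
      by_contra hcon
      obtain ⟨g', hg'⟩ := hΘ.exists_long hSf hS x (ℓ - 1) hcon
      exact hlong ⟨g', by omega⟩
    let _ : MulAction E V := MulAction.compHom V π
    have hfix : ∀ a ∈ E0 E (ball S ((ℓ - 1) * (r * b + 1) + r * b)).ncard, π a x = x :=
      fun a ha => E0_smul ha x hsmall.1 hsmall.2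
    rw [map_mul, map_mul, Equiv.Perm.mul_apply, Equiv.Perm.mul_apply, hfix g hg2, hfix k hk2,
      hfix g hg2]

end Pool.Agent.Lib.H65D
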