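import Pool.Agent.Lib.Helper67.BN.Basic

/-!
# Covers of multiplicity two: connected pieces
-/

set_option autoImplicit false

namespace Pool.Agent.Lib.H65D

open Pool.Agent.Lib.Helper67.BN (ball orbitBall ball_mono one_mem_ball ball_mul ball_inv finite_T
  orbitBall_mono mem_orbitBall_self)

universe u v

variable {E : Type u} [Group E] {V : Type v}

/-- Pieces: `f x` contains a large ball around `x`, no point lies in three different pieces, the
pieces are small and connected. -/
structure Pieces (π : E →* Equiv.Perm V) (S : Set E) (r b : ℕ) (f : V → Set V) : Prop where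
  ball_sub : ∀ x, orbitBall π S x (2 * r) ⊆ f x
  mult : ∀ x y z p, p ∈ f x → p ∈ f y → p ∈ f z → f x = f y ∨ f y = f z ∨ f x = f z
  fin : ∀ x, (f x).Finite
  card : ∀ x, (f x).ncard ≤ b
  conn : ∀ x y z, y ∈ f x → z ∈ f x → ∃ n ≤ b, ∃ p : ℕ → V, p 0 = y ∧ p n = z ∧
    (∀ i ≤ n, p i ∈ f x) ∧ ∀ i < n, p (i + 1) ∈ orbitBall π S (p i) r

theorem orbitBall_symm {π : E →* Equiv.Perm V} {S : Set E} {x y : V} {n : ℕ}
    (h : y ∈ orbitBall π S x n) : x ∈ orbitBall π S y n := by
  obtain ⟨g, hg, rfl⟩ := h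
  refine ⟨g⁻¹, ball_inv hg, ?_⟩
  rw [← Equiv.Perm.mul_apply, ← map_mul, inv_mul_cancel, map_one, Equiv.Perm.one_apply]

/-- Neighbours inside `W`. -/
def nbr (π : E →* Equiv.Perm V) (S : Set E) (r : ℕ) (W : Set V) : SimpleGraph V where
  Adj p q := p ≠ q ∧ p ∈ W ∧ q ∈ W ∧ q ∈ orbitBall π S p r
  symm := ⟨fun _ _ h => ⟨h.1.symm, h.2.2.1, h.2.1, orbitBall_symm h.2.2.2⟩⟩
  loopless := ⟨fun _ h => h.1 rfl⟩

theorem mem_of_walk {π : E →* Equiv.Perm V} {S : Set E} {r : ℕ} {W : Set V} {y z : V}
    (p : (nbr π S r W).Walk y z) (hy : y ∈ W) : ∀ q ∈ p.support, q ∈ W := by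
  induction p with
  | nil =>
    intro q hq
    rw [SimpleGraph.Walk.support_nil, List.mem_singleton] at hq
    rwa [hq]
  | cons h p ih =>
    intro q hq
    rw [SimpleGraph.Walk.support_cons, List.mem_cons] at hq
    rcases hq with rfl | hq
    · exact hy
    · exact ih h.2.2.1 q hq

/-- A cover of multiplicity two by small sets gives connected pieces. -/
theorem exists_pieces {π : E →* Equiv.Perm V} {S : Set E} {r b : ℕ} {𝒲 : Set (Set V)}
    (h1 : ∀ W ∈ 𝒲, W.Finite ∧ W.ncard ≤ b)
    (h2 : ∀ x, {W | W ∈ 𝒲 ∧ x ∈ W}.encard ≤ 2)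
    (h3 : ∀ x, ∃ W ∈ 𝒲, orbitBall π S x (2 * r) ⊆ W) : ∃ f : V → Set V, Pieces π S r b f := by
  classical
  choose W hW1 hW2 using h3
  have hself : ∀ x, x ∈ W x := fun x => hW2 x (mem_orbitBall_self π S x _)
  let f : V → Set V := fun x => {y | y ∈ W x ∧ (nbr π S r (W x)).Reachable x y}
  have hsub : ∀ x, f x ⊆ W x := fun x y hy => hy.1
  refine ⟨f, ?_, ?_, fun x => (h1 _ (hW1 x)).1.subset (hsub x),
    fun x => (Set.ncard_le_ncard (hsub x) (h1 _ (hW1 x)).1).trans (h1 _ (hW1 x)).2, ?_⟩
  · -- balls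
    intro x y hy
    refine ⟨hW2 x hy, ?_⟩
    obtain ⟨g, ⟨l, hl1, hl2, rfl⟩, rfl⟩ := hy
    have key : ∀ l : List E, l.length ≤ 2 * r → (∀ x ∈ l, x ∈ S ∨ x⁻¹ ∈ S) →
        (nbr π S r (W x)).Reachable x (π l.prod x) := by
      intro l
      induction l with
      | nil =>
        intro _ _
        rw [List.prod_nil, map_one]
        exact SimpleGraph.Reachable.refl _
      | cons s l ih =>
        intro h4 h5
        rw [List.length_cons] at h4
        have h6 := ih (by omega) (fun x hx => h5 x (List.mem_cons_of_mem _ hx))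
        have h7 : π l.prod x ∈ W x := hW2 x ⟨l.prod, ⟨l, by omega,
          fun x hx => h5 x (List.mem_cons_of_mem _ hx), rfl⟩, rfl⟩
        have h8 : π (s :: l).prod x ∈ W x := hW2 x ⟨(s :: l).prod, ⟨s :: l, by
          rw [List.length_cons]; omega, h5, rfl⟩, rfl⟩
        by_cases h9 : π l.prod x = π (s :: l).prod x
        · rwa [← h9]
        · refine h6.trans (SimpleGraph.Adj.reachable ⟨h9, h7, h8, ?_⟩)
          refine ⟨s, ⟨[s], ?_, fun x hx => ?_, by simp⟩, by rw [List.prod_cons, map_mul]; rfl⟩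
          · rw [List.length_singleton]
            omega
          · rw [List.mem_singleton] at hx
            subst hx
            exact h5 x (by simp)
    exact key l hl1 hl2
  · -- multiplicity
    intro x y z p hx hy hz
    have key : ∀ x y, p ∈ f x → p ∈ f y → W x = W y → f x = f y := by
      intro x y hx hy hxy
      have h4 : (nbr π S r (W x)).Reachable x y := by
        have h5 := hx.2
        have h6 := hy.2
        rw [← hxy] at h6
        exact h5.trans h6.symm
      ext q
      constructor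
      · rintro ⟨h5, h6⟩
        refine ⟨hxy ▸ h5, ?_⟩
        rw [← hxy]
        exact h4.symm.trans h6
      · rintro ⟨h5, h6⟩
        rw [← hxy] at h5 h6
        exact ⟨h5, h4.trans h6⟩
    by_contra hcon
    push Not at hcon
    obtain ⟨c1, c2, c3⟩ := hcon
    have n1 : W x ≠ W y := fun h => c1 (key x y hx hy h)
    have n2 : W y ≠ W z := fun h => c2 (key y z hy hz h)
    have n3 : W x ≠ W z := fun h => c3 (key x z hx hz h)
    have h4 : ({W x, W y, W z} : Set (Set V)) ⊆ {W | W ∈ 𝒲 ∧ p ∈ W} := by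
      intro U hU
      rcases hU with rfl | rfl | rfl
      · exact ⟨hW1 x, hx.1⟩
      · exact ⟨hW1 y, hy.1⟩
      · exact ⟨hW1 z, hz.1⟩
    have h5 := (Set.encard_le_encard h4).trans (h2 p)
    rw [Set.encard_insert_of_notMem, Set.encard_pair n2] at h5
    · have h6 : ((2 : ℕ∞) + 1) = ((3 : ℕ) : ℕ∞) := by norm_num
      rw [h6] at h5
      have h7 : (3 : ℕ) ≤ 2 := by exact_mod_cast h5
      omega
    · intro h6
      rcases h6 with h6 | h6
      · exact n1 h6
      · exact n3 h6
  · -- connectedness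
    intro x y z hy hz
    have h4 : (nbr π S r (W x)).Reachable y z := hy.2.symm.trans hz.2
    obtain ⟨p, hp⟩ := h4.exists_isPath
    have hmem := mem_of_walk p hy.1
    have hlen : p.length ≤ b := by
      have h5 : (p.support.toFinset : Set V) ⊆ W x := by
        intro q hq
        rw [Finset.mem_coe, List.mem_toFinset] at hq
        exact hmem q hq
      have h6 := Set.ncard_le_ncard h5 (h1 _ (hW1 x)).1
      rw [Set.ncard_coe_finset, List.toFinset_card_of_nodup hp.support_nodup,
        SimpleGraph.Walk.length_support] at h6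
      have h7 := (h1 _ (hW1 x)).2
      omega
    refine ⟨p.length, hlen, p.getVert, p.getVert_zero, p.getVert_length, ?_, ?_⟩
    · intro i _
      refine ⟨hmem _ (SimpleGraph.Walk.getVert_mem_support p i), ?_⟩
      exact hy.2.trans ⟨p.take i⟩
    · intro i hi
      exact (p.adj_getVert_succ hi).2.2.2

end Pool.Agent.Lib.H65D
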