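import Pool.Agent.Lib.H65D.Tree
import Pool.Agent.Lib.H31.Ends.Final

/-!
# Long paths give long chains of nested cuts
-/

set_option autoImplicit false

namespace Pool.Agent.Lib.H65D

open Pool.Agent.Lib.Helper67.BN (ball orbitBall ball_mono one_mem_ball ball_mul ball_inv finite_T
  orbitBall_mono mem_orbitBall_self mem_ball_succ ball_finite)

universe u v

variable {E : Type u} [Group E] {V : Type v} {π : E →* Equiv.Perm V} {S : Set E}
  {r b : ℕ} {f : V → Set V} {Θ : E →* Equiv.Perm (Lift f)}

/-- The suffix of length `n`. -/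
def suf {α : Type*} (l : List α) (n : ℕ) : List α := l.drop (l.length - n)

theorem suf_suffix {α : Type*} (l : List α) (n : ℕ) : suf l n <:+ l := List.drop_suffix _ _

theorem length_suf {α : Type*} {l : List α} {n : ℕ} (h : n ≤ l.length) :
    (suf l n).length = n := by
  rw [suf, List.length_drop]
  omega

theorem suf_suf {α : Type*} {l : List α} {m n : ℕ} (h : m ≤ n) (hn : n ≤ l.length) :
    suf l m <:+ suf l n :=
  List.suffix_of_suffix_length_le (suf_suffix l m) (suf_suffix l n)
    (by rw [length_suf hn, length_suf (h.trans hn)]; exact h)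

theorem suf_ne_nil {α : Type*} {l : List α} {n : ℕ} (h : n ≤ l.length) (hn : 1 ≤ n) :
    suf l n ≠ [] := by
  intro h1
  have h2 := length_suf h
  rw [h1, List.length_nil] at h2
  omega

theorem LiftData.cutChain (h : LiftData π S r b f Θ) (x : V) {g : E} {N : ℕ}
    (hlen : N + 2 ≤ (Θ g (base f x)).st.length) :
    ∃ (H : Subgroup E) (A : Fin N → Set (E ⧸ H)),
      Pool.Agent.Lib.H31.Ends.IsCutChain S b N A := by
  let _ : MulAction E (Lift f) := MulAction.compHom (Lift f) Θ
  have hsm : ∀ (k : E) (z : Lift f), k • z = Θ k z := fun _ _ => rfl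
  obtain ⟨q, hq⟩ : ∃ q : E ⧸ MulAction.stabilizer E (base f x) → Lift f,
      q = MulAction.ofQuotientStabilizer E (base f x) := ⟨_, rfl⟩
  have hqs : ∀ (k : E) (y : E ⧸ MulAction.stabilizer E (base f x)), q (k • y) = Θ k (q y) := by
    intro k y
    rw [hq, MulAction.ofQuotientStabilizer_smul, hsm]
  have hqinj : Function.Injective q := by
    rw [hq]
    exact MulAction.injective_ofQuotientStabilizer E (base f x)
  have hqmk : ∀ k : E, q (k : E ⧸ MulAction.stabilizer E (base f x)) = Θ k (base f x) := by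
    intro k
    rw [hq, MulAction.ofQuotientStabilizer_mk, hsm]
  obtain ⟨l, hl⟩ : ∃ l, l = (Θ g (base f x)).st := ⟨_, rfl⟩
  rw [← hl] at hlen
  have hvb : ∀ k : ℕ, k < N → ∀ y ∈ Pool.Agent.Lib.H31.Ends.vb S
      {y : E ⧸ MulAction.stabilizer E (base f x) | suf l (k + 2) <:+ (q y).st},
      (q y).st = suf l (k + 2) := by
    rintro k hk y ⟨h1, s, hs, h2⟩
    have h3 : ∃ t, (t ∈ S ∨ t⁻¹ ∈ S) ∧ ¬ suf l (k + 2) <:+ (q (t • y)).st := by
      rcases h2 with h2 | h2
      · exact ⟨s, Or.inl hs, h2⟩
      · exact ⟨s⁻¹, Or.inr (by rwa [inv_inv]), h2⟩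
    obtain ⟨t, ht, h4⟩ := h3
    rw [hqs, h.st_gen ht] at h4
    rcases suffix_push_or (j := f (π t (q y).pt)) h1 (suf_ne_nil (by omega) (by omega)) with h5 | h5
    · exact h5.symm
    · exact absurd h5 h4
  refine ⟨MulAction.stabilizer E (base f x),
    fun k => {y | suf l (k.1 + 2) <:+ (q y).st}, ?_, ?_, ?_, ?_⟩
  · intro i j hij y hy
    have h1 : i.1 < j.1 := hij
    exact (suf_suf (by omega) (by have := j.2; omega)).trans hy
  · intro i
    constructor
    · refine ⟨(g : E ⧸ MulAction.stabilizer E (base f x)), ?_⟩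
      show suf l (i.1 + 2) <:+ (q _).st
      rw [hqmk, ← hl]
      exact suf_suffix _ _
    · intro huniv
      have huniv' : {y | suf l (i.1 + 2) <:+ (q y).st} = Set.univ := huniv
      have h1 : ((1 : E) : E ⧸ MulAction.stabilizer E (base f x)) ∈
          {y | suf l (i.1 + 2) <:+ (q y).st} := by
        rw [huniv']
        trivial
      have h2 : suf l (i.1 + 2) <:+ (q ((1 : E) : E ⧸ MulAction.stabilizer E (base f x))).st := h1
      rw [hqmk, map_one] at h2
      have h3 := h2.length_le
      rw [length_suf (by have := i.2; omega)] at h3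
      have h4 : ((1 : Equiv.Perm (Lift f)) (base f x)).st.length = 1 := rfl
      omega
  · intro i j hij
    rw [Set.disjoint_left]
    intro y hy hy'
    have h1 := hvb i.1 i.2 y hy
    have h2 := hvb j.1 j.2 y hy'
    rw [h1] at h2
    have h3 := congrArg List.length h2
    rw [length_suf (by have := i.2; omega), length_suf (by have := j.2; omega)] at h3
    have h4 : i.1 < j.1 := hij
    omega
  · intro i
    have h1 : q '' Pool.Agent.Lib.H31.Ends.vb S {y | suf l (i.1 + 2) <:+ (q y).st} ⊆
        {z : Lift f | z.st = suf l (i.1 + 2)} := by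
      rintro _ ⟨y, hy, rfl⟩
      exact hvb i.1 i.2 y hy
    obtain ⟨h2, h3⟩ := h.fiber_card (suf l (i.1 + 2))
    have h4 := Set.ncard_le_ncard h1 h2
    refine ⟨Set.Finite.of_finite_image (h2.subset h1) hqinj.injOn, ?_⟩
    rw [Set.ncard_image_of_injective _ hqinj] at h4
    exact h4.trans h3

/-- Large orbits have long paths. -/
theorem LiftData.exists_long (h : LiftData π S r b f Θ) (hSf : S.Finite)
    (hS : Subgroup.closure S = ⊤) (x : V) (L : ℕ)
    (hx : ¬ ((Set.range fun g => π g x).Finite ∧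
      (Set.range fun g => π g x).ncard ≤ (ball S (L * (r * b + 1) + r * b)).ncard)) :
    ∃ g : E, L + 2 ≤ (Θ g (base f x)).st.length := by
  by_contra hcon
  push Not at hcon
  apply hx
  have h1 : (Set.range fun g => π g x) ⊆
      (fun g => π g x) '' ball S (L * (r * b + 1) + r * b) := by
    rintro _ ⟨g, rfl⟩
    have h2 := hcon g
    have h3 : 1 ≤ (Θ g (base f x)).st.length :=
      Nat.one_le_iff_ne_zero.2 fun h0 => (Θ g (base f x)).ne_nil (List.length_eq_zero_iff.1 h0)
    obtain ⟨k, hk, h4⟩ := h.dist hS x ((Θ g (base f x)).st.length - 1) _ ⟨g, rfl⟩ (by omega)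
      (Θ g (base f x)) rfl
    refine ⟨k, ball_mono ?_ hk, ?_⟩
    · apply Nat.add_le_add_right
      apply Nat.mul_le_mul_right
      omega
    · have h5 := congrArg Lift.pt h4
      rw [h.pt, h.pt] at h5
      exact h5
  have h2 : ((fun g => π g x) '' ball S (L * (r * b + 1) + r * b)).Finite :=
    (ball_finite hSf _).image _
  exact ⟨h2.subset h1, (Set.ncard_le_ncard h1 h2).trans (Set.ncard_image_le (ball_finite hSf _))⟩

end Pool.Agent.Lib.H65D
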