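import Mathlib

/-!
MP_273810_co, H25D, part A1(b): the abstract counting lemma (design of helper94).

A closed billiard path with the bounces `1, …, K` starts at `x 0` and ends at `x (K + 1)` (the same
vertex); chord `m` (`0 ≤ m ≤ K`) belongs to the copy `d m` and goes from `x m` to `x (m + 1)` (places
on the boundary, linearly ordered after a cut at the vertex `v 1`). Two chords of one copy do not
interleave, the bounces on the far sides are balanced. Then there is no bounce on a far side.

With `G e y` = departures minus arrivals of the copy `e` before `y`: `G (d m) (x (m+1)) = G (d m) (x m) + 1`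
(no interleaving) and `G (d m) (x m) = - G (d (m-1)) (x m)` (bounce), so `2 G (d m) (x m) + 1` changes
sign at every bounce; but it is `1` at the first and `-1` at the last bounce of a pair of copies on a far
side.
-/

namespace Pool.Agent.Lib.H65D

open Finset

/-- indicator -/
def ind (p : Prop) [Decidable p] : ℤ := if p then 1 else 0

theorem ind_true {p : Prop} [Decidable p] (h : p) : ind p = 1 := if_pos h

theorem ind_false {p : Prop} [Decidable p] (h : ¬ p) : ind p = 0 := if_neg h

theorem ind_congr {p q : Prop} [Decidable p] [Decidable q] (h : p ↔ q) : ind p = ind q := by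
  by_cases hp : p
  · rw [ind_true hp, ind_true (h.1 hp)]
  · rw [ind_false hp, ind_false (fun hq => hp (h.2 hq))]

section

variable {D L : Type*} [DecidableEq D] [LinearOrder L]

/-- departures minus arrivals of the copy `e` before `y` -/
def G (K : ℕ) (d : ℕ → D) (x : ℕ → L) (e : D) (y : L) : ℤ :=
  ∑ m ∈ range (K + 1), ind (d m = e) * (ind (x m < y) - ind (x (m + 1) < y))

theorem G_step {K : ℕ} {d : ℕ → D} {x : ℕ → L} (hself : ∀ m ≤ K, x m ≠ x (m + 1))
    (hdist : ∀ m ≤ K, ∀ m' ≤ K, m ≠ m' → d m = d m' →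
      x m ≠ x m' ∧ x (m + 1) ≠ x (m' + 1) ∧ x m ≠ x (m' + 1))
    (hNI : ∀ m ≤ K, ∀ m' ≤ K, m ≠ m' → d m = d m' →
      ((min (x m) (x (m + 1)) < x m' ∧ x m' < max (x m) (x (m + 1))) ↔
        (min (x m) (x (m + 1)) < x (m' + 1) ∧ x (m' + 1) < max (x m) (x (m + 1)))))
    {m : ℕ} (hm : m ≤ K) : G K d x (d m) (x (m + 1)) = G K d x (d m) (x m) + 1 := by
  have key : G K d x (d m) (x (m + 1)) - G K d x (d m) (x m) = 1 := by
    unfold G
    rw [← sum_sub_distrib, sum_eq_single m]
    · rw [ind_true rfl, ind_false (lt_irrefl (x (m + 1))), ind_false (lt_irrefl (x m))]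
      rcases lt_or_gt_of_ne (hself m hm) with h | h
      · rw [ind_true h, ind_false (lt_asymm h)]
        norm_num
      · rw [ind_true h, ind_false (lt_asymm h)]
        norm_num
    · intro k hk hkm
      rw [mem_range, Nat.lt_succ_iff] at hk
      by_cases he : d k = d m
      · rw [ind_true he]
        obtain ⟨h1, h2, h3⟩ := hdist k hk m hm hkm he
        obtain ⟨-, -, h4⟩ := hdist m hm k hk (Ne.symm hkm) he.symm
        have hni := hNI m hm k hk (Ne.symm hkm) he.symm
        rcases lt_or_gt_of_ne (hself m hm) with h | h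
        · rw [min_eq_left h.le, max_eq_right h.le] at hni
          have e1 : ind (x k < x (m + 1)) - ind (x k < x m) = ind (x m < x k ∧ x k < x (m + 1)) := by
            rcases lt_or_gt_of_ne h1 with h5 | h5
            · rw [ind_true h5, ind_true (h5.trans h), ind_false (fun h6 => lt_asymm h5 h6.1)]
              norm_num
            · rw [ind_false (lt_asymm h5)]
              rw [sub_zero]
              exact ind_congr ⟨fun h6 => ⟨h5, h6⟩, fun h6 => h6.2⟩
          have e2 : ind (x (k + 1) < x (m + 1)) - ind (x (k + 1) < x m) =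
              ind (x m < x (k + 1) ∧ x (k + 1) < x (m + 1)) := by
            rcases lt_or_gt_of_ne h4 with h5 | h5
            · rw [ind_false (lt_asymm h5)]
              rw [sub_zero]
              exact ind_congr ⟨fun h6 => ⟨h5, h6⟩, fun h6 => h6.2⟩
            · rw [ind_true h5, ind_true (h5.trans h), ind_false (fun h6 => lt_asymm h5 h6.1)]
              norm_num
          have e3 := ind_congr hni
          linarith
        · rw [min_eq_right h.le, max_eq_left h.le] at hni
          have e1 : ind (x k < x m) - ind (x k < x (m + 1)) = ind (x (m + 1) < x k ∧ x k < x m) := by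
            rcases lt_or_gt_of_ne h3 with h5 | h5
            · rw [ind_true h5, ind_true (h5.trans h), ind_false (fun h6 => lt_asymm h5 h6.1)]
              norm_num
            · rw [ind_false (lt_asymm h5)]
              rw [sub_zero]
              exact ind_congr ⟨fun h6 => ⟨h5, h6⟩, fun h6 => h6.2⟩
          have e2 : ind (x (k + 1) < x m) - ind (x (k + 1) < x (m + 1)) =
              ind (x (m + 1) < x (k + 1) ∧ x (k + 1) < x m) := by
            rcases lt_or_gt_of_ne h2 with h5 | h5
            · rw [ind_true h5, ind_true (h5.trans h), ind_false (fun h6 => lt_asymm h5 h6.1)]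
              norm_num
            · rw [ind_false (lt_asymm h5)]
              rw [sub_zero]
              exact ind_congr ⟨fun h6 => ⟨h5, h6⟩, fun h6 => h6.2⟩
          have e3 := ind_congr hni
          linarith
      · rw [ind_false he]
        ring
    · intro h
      exact absurd (mem_range.2 (Nat.lt_succ_of_le hm)) h
  linarith

/-- `G` in terms of the bounces -/
theorem G_bounces (K : ℕ) (d : ℕ → D) (x : ℕ → L) (e : D) (y : L) :
    G K d x e y = ∑ m ∈ range K, ind (x (m + 1) < y) * (ind (d (m + 1) = e) - ind (d m = e)) +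
      ind (d 0 = e) * ind (x 0 < y) - ind (d K = e) * ind (x (K + 1) < y) := by
  unfold G
  have h1 : ∑ m ∈ range (K + 1), ind (d m = e) * (ind (x m < y) - ind (x (m + 1) < y)) =
      ∑ m ∈ range (K + 1), ind (d m = e) * ind (x m < y) -
        ∑ m ∈ range (K + 1), ind (d m = e) * ind (x (m + 1) < y) := by
    rw [← sum_sub_distrib]
    exact sum_congr rfl fun m _ => by ring
  rw [h1, sum_range_succ', sum_range_succ (fun m => ind (d m = e) * ind (x (m + 1) < y))]
  have h2 : ∑ m ∈ range K, ind (x (m + 1) < y) * (ind (d (m + 1) = e) - ind (d m = e)) =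
      ∑ m ∈ range K, ind (d (m + 1) = e) * ind (x (m + 1) < y) -
        ∑ m ∈ range K, ind (d m = e) * ind (x (m + 1) < y) := by
    rw [← sum_sub_distrib]
    exact sum_congr rfl fun m _ => by ring
  rw [h2]
  ring

/-- `G` in terms of the bounces after `y` -/
theorem G_bounces' (K : ℕ) (d : ℕ → D) (x : ℕ → L) (e : D) (y : L) :
    G K d x e y = - ∑ m ∈ range K, ind (¬ x (m + 1) < y) * (ind (d (m + 1) = e) - ind (d m = e)) -
      ind (d 0 = e) * ind (¬ x 0 < y) + ind (d K = e) * ind (¬ x (K + 1) < y) := by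
  have hc : ∀ p : Prop, ∀ [Decidable p], ind (¬ p) = 1 - ind p := by
    intro p _
    by_cases h : p
    · rw [ind_true h, ind_false (fun h' => h' h)]
      norm_num
    · rw [ind_false h, ind_true h]
      norm_num
  have htel : ∑ m ∈ range K, (ind (d (m + 1) = e) - ind (d m = e)) = ind (d K = e) - ind (d 0 = e) :=
    sum_range_sub (fun m => ind (d m = e)) K
  have h1 : ∑ m ∈ range K, ind (¬ x (m + 1) < y) * (ind (d (m + 1) = e) - ind (d m = e)) =
      ∑ m ∈ range K, (ind (d (m + 1) = e) - ind (d m = e)) -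
        ∑ m ∈ range K, ind (x (m + 1) < y) * (ind (d (m + 1) = e) - ind (d m = e)) := by
    rw [← sum_sub_distrib]
    refine sum_congr rfl fun m _ => ?_
    rw [hc]
    ring
  rw [G_bounces, h1, htel, hc, hc]
  ring

/-- the balance of a side, as a sum -/
theorem bal_sum {K : ℕ} {d : ℕ → D} {J : ℕ → ℕ} {j : ℕ} {e : D}
    (h : ((Icc 1 K).filter (fun m => J m = j ∧ d m = e)).card =
      ((Icc 1 K).filter (fun m => J m = j ∧ d (m - 1) = e)).card) :
    ∑ m ∈ (range K).filter (fun m => J (m + 1) = j), (ind (d (m + 1) = e) - ind (d m = e)) = 0 := by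
  have hI : ∀ p : ℕ → Prop, ∀ [DecidablePred p],
      (((Icc 1 K).filter p).card : ℤ) = ∑ m ∈ range K, ind (p (m + 1)) := by
    intro p _
    rw [card_filter]
    push_cast
    have e1 : Icc 1 K = Ico 1 (K + 1) := by
      ext a
      simp only [mem_Icc, mem_Ico]
      omega
    rw [e1, sum_Ico_eq_sum_range]
    rw [Nat.add_sub_cancel]
    refine sum_congr rfl fun m _ => ?_
    rw [Nat.add_comm 1 m]
    by_cases hp : p (m + 1)
    · rw [ind_true hp, if_pos hp]
    · rw [ind_false hp, if_neg hp]
  have h' : (((Icc 1 K).filter (fun m => J m = j ∧ d m = e)).card : ℤ) =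
      ((Icc 1 K).filter (fun m => J m = j ∧ d (m - 1) = e)).card := by exact_mod_cast h
  rw [hI, hI] at h'
  rw [sum_filter]
  have h2 : ∑ m ∈ range K, (ind (J (m + 1) = j ∧ d (m + 1) = e) -
      ind (J (m + 1) = j ∧ d (m + 1 - 1) = e)) = 0 := by
    rw [sum_sub_distrib, h', sub_self]
  refine Eq.trans (sum_congr rfl fun m _ => ?_) h2
  rw [Nat.add_sub_cancel]
  by_cases hj : J (m + 1) = j
  · rw [if_pos hj]
    have e1 : ind (J (m + 1) = j ∧ d (m + 1) = e) = ind (d (m + 1) = e) :=
      ind_congr ⟨fun h => h.2, fun h => ⟨hj, h⟩⟩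
    have e2 : ind (J (m + 1) = j ∧ d m = e) = ind (d m = e) :=
      ind_congr ⟨fun h => h.2, fun h => ⟨hj, h⟩⟩
    rw [e1, e2]
  · rw [if_neg hj, ind_false (fun h => hj h.1), ind_false (fun h => hj h.1), sub_zero]

/-- `G` at a point of a side before the vertex -/
theorem G_side {K n : ℕ} {d : ℕ → D} {J : ℕ → ℕ} {x : ℕ → L}
    (hJ : ∀ m, 1 ≤ m → m ≤ K → 1 ≤ J m ∧ J m ≤ n)
    (hord : ∀ m m', 1 ≤ m → m ≤ K → 1 ≤ m' → m' ≤ K → J m < J m' → x m < x m')
    (h0 : ∀ m, 1 ≤ m → m ≤ K → (J m < n → x m < x 0 ∧ x m < x (K + 1)) ∧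
      (J m = n → x 0 < x m ∧ x (K + 1) < x m))
    (hbal : ∀ j, 1 ≤ j → j + 2 ≤ n → ∀ e,
      ((Icc 1 K).filter (fun m => J m = j ∧ d m = e)).card =
        ((Icc 1 K).filter (fun m => J m = j ∧ d (m - 1) = e)).card)
    {m : ℕ} (hm : m < K) (hjn : J (m + 1) < n) (e : D) :
    G K d x e (x (m + 1)) = ∑ k ∈ (range K).filter (fun k => J (k + 1) = J (m + 1)),
      ind (x (k + 1) < x (m + 1)) * (ind (d (k + 1) = e) - ind (d k = e)) := by
  have hm1 : 1 ≤ m + 1 := Nat.le_add_left 1 m
  obtain ⟨ha, hb⟩ := (h0 (m + 1) hm1 hm).1 hjn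
  rw [G_bounces, ind_false (lt_asymm ha), ind_false (lt_asymm hb), mul_zero, mul_zero, add_zero,
    sub_zero]
  rw [← sum_fiberwise_of_maps_to (t := Icc 1 n) (g := fun k => J (k + 1))
    (fun k hk => by
      rw [mem_range] at hk
      rw [mem_Icc]
      exact hJ (k + 1) (Nat.le_add_left 1 k) hk)]
  rw [sum_eq_single (J (m + 1))]
  · intro i hi hij
    rw [mem_Icc] at hi
    rcases lt_or_gt_of_ne hij with h | h
    · have h1 : ∑ k ∈ (range K).filter (fun k => J (k + 1) = i),
          ind (x (k + 1) < x (m + 1)) * (ind (d (k + 1) = e) - ind (d k = e)) =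
          ∑ k ∈ (range K).filter (fun k => J (k + 1) = i), (ind (d (k + 1) = e) - ind (d k = e)) := by
        refine sum_congr rfl fun k hk => ?_
        rw [mem_filter, mem_range] at hk
        rw [ind_true (hord (k + 1) (m + 1) (Nat.le_add_left 1 k) hk.1 hm1 hm (by rw [hk.2]; exact h)),
          one_mul]
      rw [h1]
      exact bal_sum (hbal i hi.1 (by omega) e)
    · refine sum_eq_zero fun k hk => ?_
      rw [mem_filter, mem_range] at hk
      rw [ind_false (lt_asymm (hord (m + 1) (k + 1) hm1 hm (Nat.le_add_left 1 k) hk.1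
        (by rw [hk.2]; exact h))), zero_mul]
  · intro h
    exact absurd (mem_Icc.2 (hJ (m + 1) hm1 hm)) h

end

theorem far_free {D L : Type*} [DecidableEq D] [LinearOrder L] (K n : ℕ) (d : ℕ → D) (J : ℕ → ℕ)
    (x : ℕ → L) (rho : ℕ → D → D) (hinv : ∀ j e, rho j (rho j e) = e)
    (hr : ∀ m, 1 ≤ m → m ≤ K → d m = rho (J m) (d (m - 1)))
    (hne : ∀ m, 1 ≤ m → m ≤ K → d m ≠ d (m - 1))
    (hJ : ∀ m, 1 ≤ m → m ≤ K → 1 ≤ J m ∧ J m ≤ n)
    (hord : ∀ m m', 1 ≤ m → m ≤ K → 1 ≤ m' → m' ≤ K → J m < J m' → x m < x m')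
    (h0 : ∀ m, 1 ≤ m → m ≤ K → (J m < n → x m < x 0 ∧ x m < x (K + 1)) ∧
      (J m = n → x 0 < x m ∧ x (K + 1) < x m))
    (hself : ∀ m ≤ K, x m ≠ x (m + 1))
    (hdist : ∀ m ≤ K, ∀ m' ≤ K, m ≠ m' → d m = d m' →
      x m ≠ x m' ∧ x (m + 1) ≠ x (m' + 1) ∧ x m ≠ x (m' + 1))
    (hNI : ∀ m ≤ K, ∀ m' ≤ K, m ≠ m' → d m = d m' →
      ((min (x m) (x (m + 1)) < x m' ∧ x m' < max (x m) (x (m + 1))) ↔
        (min (x m) (x (m + 1)) < x (m' + 1) ∧ x (m' + 1) < max (x m) (x (m + 1)))))
    (hbal : ∀ j, 1 ≤ j → j + 2 ≤ n → ∀ e,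
      ((Icc 1 K).filter (fun m => J m = j ∧ d m = e)).card =
        ((Icc 1 K).filter (fun m => J m = j ∧ d (m - 1) = e)).card)
    (hpar : ∀ m m', 1 ≤ m → m ≤ K → 1 ≤ m' → m' ≤ K → J m = J m' →
      (d m = d m' ∨ d m = d (m' - 1)) → m % 2 = m' % 2) :
    ∀ m, 1 ≤ m → m ≤ K → n ≤ J m + 1 := by
  have hrho : ∀ j a b, rho j a = rho j b → a = b := fun j a b h => by
    rw [← hinv j a, h, hinv]
  -- the copies before and after a bounce
  have hr' : ∀ k, k < K → d (k + 1) = rho (J (k + 1)) (d k) := fun k hk => by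
    have := hr (k + 1) (Nat.le_add_left 1 k) hk
    rwa [Nat.add_sub_cancel] at this
  have hr'' : ∀ k, k < K → d k = rho (J (k + 1)) (d (k + 1)) := fun k hk => by
    rw [hr' k hk, hinv]
  -- the bounce changes the sign
  have hbounce : ∀ m, m < K → G K d x (d (m + 1)) (x (m + 1)) = - G K d x (d m) (x (m + 1)) := by
    intro m hm
    have hm1 : 1 ≤ m + 1 := Nat.le_add_left 1 m
    have hcancel : ∀ k, k < K → J (k + 1) = J (m + 1) →
        (ind (d (k + 1) = d (m + 1)) - ind (d k = d (m + 1))) =
          - (ind (d (k + 1) = d m) - ind (d k = d m)) := by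
      intro k hk hjk
      have e1 : ind (d (k + 1) = d (m + 1)) = ind (d k = d m) := ind_congr
        ⟨fun h => by
          rw [hr'' k hk, hr'' m hm, hjk, h],
         fun h => by
          rw [hr' k hk, hr' m hm, hjk, h]⟩
      have e2 : ind (d k = d (m + 1)) = ind (d (k + 1) = d m) := ind_congr
        ⟨fun h => by
          rw [hr' k hk, h, hjk, ← hr'' m hm],
         fun h => by
          rw [hr'' k hk, h, hjk, ← hr' m hm]⟩
      rw [e1, e2]
      ring
    rcases lt_or_eq_of_le (hJ (m + 1) hm1 hm).2 with hjn | hjn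
    · rw [G_side hJ hord h0 hbal hm hjn, G_side hJ hord h0 hbal hm hjn, ← sum_neg_distrib]
      refine sum_congr rfl fun k hk => ?_
      rw [mem_filter, mem_range] at hk
      rw [hcancel k hk.1 hk.2]
      ring
    · obtain ⟨ha, hb⟩ := (h0 (m + 1) hm1 hm).2 hjn
      rw [G_bounces', G_bounces', ind_false (not_not.2 ha), ind_false (not_not.2 hb), mul_zero,
        mul_zero, mul_zero, mul_zero, add_zero, sub_zero, add_zero, sub_zero, neg_neg,
        ← sum_neg_distrib]
      refine sum_congr rfl fun k hk => ?_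
      rw [mem_range] at hk
      by_cases hx : x (k + 1) < x (m + 1)
      · rw [ind_false (not_not.2 hx)]
        ring
      · have hjk : J (k + 1) = J (m + 1) := by
          rcases lt_or_eq_of_le (hJ (k + 1) (Nat.le_add_left 1 k) hk).2 with h | h
          · exact absurd (hord (k + 1) (m + 1) (Nat.le_add_left 1 k) hk hm1 hm (by rw [hjn]; exact h))
              hx
          · rw [h, hjn]
        rw [hcancel k hk hjk]
        ring
  -- the recursion
  have hrec : ∀ m, m ≤ K → 2 * G K d x (d m) (x m) + 1 = (-1) ^ m * (2 * G K d x (d 0) (x 0) + 1) := by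
    intro m
    induction m with
    | zero => intro _; simp
    | succ m ih =>
      intro hm
      have h1 := ih (Nat.le_of_succ_le hm)
      have h2 := hbounce m hm
      have h3 := G_step hself hdist hNI (Nat.le_of_succ_le hm)
      rw [h2, h3, pow_succ]
      have h4 : (-1 : ℤ) ^ m * -1 * (2 * G K d x (d 0) (x 0) + 1) =
          - ((-1) ^ m * (2 * G K d x (d 0) (x 0) + 1)) := by ring
      rw [h4, ← h1]
      ring
  -- a far bounce
  intro m1 hm1 hmK
  by_contra hfar
  push Not at hfar
  obtain ⟨m, rfl⟩ : ∃ m, m1 = m + 1 := ⟨m1 - 1, by omega⟩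
  set j := J (m + 1) with hj
  have hj1 : 1 ≤ j := (hJ (m + 1) hm1 hmK).1
  set B := (range K).filter (fun k => J (k + 1) = j ∧ (d (k + 1) = d m ∨ d (k + 1) = d (m + 1)))
    with hB
  have hBne : B.Nonempty := ⟨m, by
    rw [hB, mem_filter, mem_range]
    exact ⟨hmK, rfl, Or.inr rfl⟩⟩
  have hBmem : ∀ k, k ∈ B ↔ k < K ∧ J (k + 1) = j ∧ (d (k + 1) = d m ∨ d (k + 1) = d (m + 1)) := by
    intro k
    rw [hB, mem_filter, mem_range]
  -- the pair of copies is closed under `rho j`
  have hpair : ∀ a, (a = d m ∨ a = d (m + 1)) → (rho j a = d m ∨ rho j a = d (m + 1)) := by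
    rintro a (rfl | rfl)
    · exact Or.inr (hr' m hmK).symm
    · exact Or.inl (hr'' m hmK).symm
  have hBk : ∀ k f, k < K → J (k + 1) = j → (f = d m ∨ f = d (m + 1)) →
      (d (k + 1) = f ∨ d k = f) → k ∈ B := by
    intro k f hk hjk hf hor
    rw [hBmem]
    refine ⟨hk, hjk, ?_⟩
    rcases hor with h | h
    · rw [h]
      exact hf
    · rw [hr' k hk, h, hjk]
      exact hpair f hf
  obtain ⟨k1, hk1, hmin⟩ := exists_min_image B (fun k => x (k + 1)) hBne
  obtain ⟨k2, hk2, hmax⟩ := exists_max_image B (fun k => x (k + 1)) hBne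
  obtain ⟨hk1K, hk1j, hk1d⟩ := (hBmem k1).1 hk1
  obtain ⟨hk2K, hk2j, hk2d⟩ := (hBmem k2).1 hk2
  -- the first bounce
  have hL1 : G K d x (d (k1 + 1)) (x (k1 + 1)) = 0 := by
    rw [G_side hJ hord h0 hbal hk1K (by rw [hk1j]; omega)]
    refine sum_eq_zero fun k hk => ?_
    rw [mem_filter, mem_range, hk1j] at hk
    by_cases hx : x (k + 1) < x (k1 + 1)
    · have hnB : k ∉ B := fun h => absurd (hmin k h) (not_le.2 hx)
      have h1 : ¬ d (k + 1) = d (k1 + 1) := fun h =>
        hnB (hBk k _ hk.1 hk.2 hk1d (Or.inl h))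
      have h2 : ¬ d k = d (k1 + 1) := fun h =>
        hnB (hBk k _ hk.1 hk.2 hk1d (Or.inr h))
      rw [ind_false h1, ind_false h2]
      ring
    · rw [ind_false hx, zero_mul]
  -- the last bounce
  have hL2 : G K d x (d (k2 + 1)) (x (k2 + 1)) = -1 := by
    rw [G_side hJ hord h0 hbal hk2K (by rw [hk2j]; omega), hk2j]
    have hb := bal_sum (hbal j hj1 (by omega) (d (k2 + 1)))
    have h1 : ∑ k ∈ (range K).filter (fun k => J (k + 1) = j),
        ind (x (k + 1) < x (k2 + 1)) * (ind (d (k + 1) = d (k2 + 1)) - ind (d k = d (k2 + 1))) =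
        ∑ k ∈ (range K).filter (fun k => J (k + 1) = j),
          (ind (d (k + 1) = d (k2 + 1)) - ind (d k = d (k2 + 1))) -
        ∑ k ∈ (range K).filter (fun k => J (k + 1) = j), (if k = k2 then (1 : ℤ) else 0) := by
      rw [← sum_sub_distrib]
      refine sum_congr rfl fun k hk => ?_
      rw [mem_filter, mem_range] at hk
      by_cases hkk : k = k2
      · subst hkk
        have hne' : ¬ d k = d (k + 1) := fun h => hne (k + 1) (Nat.le_add_left 1 k) hk.1 (by
          rw [Nat.add_sub_cancel]
          exact h.symm)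
        rw [ind_false (lt_irrefl _), ind_true rfl, ind_false hne', if_pos rfl]
        norm_num
      · rw [if_neg hkk, sub_zero]
        by_cases hx : x (k + 1) < x (k2 + 1)
        · rw [ind_true hx, one_mul]
        · have hnB : k ∉ B := by
            intro h
            have h2 : x (k + 1) = x (k2 + 1) := le_antisymm (hmax k h) (not_lt.1 hx)
            obtain ⟨-, -, hkd⟩ := (hBmem k).1 h
            -- two different bounces of one pair at one place
            have h3 : d (k + 1) = d (k2 + 1) ∨ d (k + 1) = d k2 := by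
              have h4 : d k2 = rho j (d (k2 + 1)) := by
                have := hr'' k2 hk2K
                rwa [hk2j] at this
              have h5 : d (m + 1) = rho j (d m) := hr' m hmK
              have h6 : d m = rho j (d (m + 1)) := hr'' m hmK
              rcases hkd with h7 | h7 <;> rcases hk2d with h8 | h8
              · exact Or.inl (by rw [h7, h8])
              · right
                rw [h4, h8, h7]
                exact h6
              · right
                rw [h4, h8, h7]
                exact h5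
              · exact Or.inl (by rw [h7, h8])
            rcases h3 with h3 | h3
            · exact (hdist (k + 1) hk.1 (k2 + 1) hk2K (by omega) h3).1 h2
            · by_cases hkk2 : k + 1 = k2
              · have := hself (k + 1) hk.1
                rw [hkk2] at this
                apply this
                rw [← h2, hkk2]
              · exact (hdist (k + 1) hk.1 k2 (Nat.le_of_lt hk2K) hkk2 h3).2.2 h2
          have h1 : ¬ d (k + 1) = d (k2 + 1) := fun h =>
            hnB (hBk k _ hk.1 hk.2 hk2d (Or.inl h))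
          have h2 : ¬ d k = d (k2 + 1) := fun h =>
            hnB (hBk k _ hk.1 hk.2 hk2d (Or.inr h))
          rw [ind_false h1, ind_false h2]
          ring
    rw [h1, hb, sum_ite_eq', if_pos (by
      rw [mem_filter, mem_range]
      exact ⟨hk2K, hk2j⟩)]
    norm_num
  -- parity
  have hp : (k1 + 1) % 2 = (k2 + 1) % 2 := by
    refine hpar (k1 + 1) (k2 + 1) (Nat.le_add_left 1 k1) hk1K (Nat.le_add_left 1 k2) hk2K
      (by rw [hk1j, hk2j]) ?_
    rw [Nat.add_sub_cancel]
    have h4 : d k2 = rho j (d (k2 + 1)) := by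
      have := hr'' k2 hk2K
      rwa [hk2j] at this
    have h5 : d (m + 1) = rho j (d m) := hr' m hmK
    have h6 : d m = rho j (d (m + 1)) := hr'' m hmK
    rcases hk1d with h7 | h7 <;> rcases hk2d with h8 | h8
    · exact Or.inl (by rw [h7, h8])
    · right
      rw [h4, h8, h7]
      exact h6
    · right
      rw [h4, h8, h7]
      exact h5
    · exact Or.inl (by rw [h7, h8])
  have e1 := hrec (k1 + 1) hk1K
  have e2 := hrec (k2 + 1) hk2K
  rw [hL1] at e1
  rw [hL2] at e2
  have e3 : (-1 : ℤ) ^ (k1 + 1) = (-1) ^ (k2 + 1) := by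
    rw [← Nat.div_add_mod (k1 + 1) 2, ← Nat.div_add_mod (k2 + 1) 2, hp, pow_add, pow_mul, pow_add,
      pow_mul]
    norm_num
  rw [e3] at e1
  rw [← e1] at e2
  norm_num at e2

end Pool.Agent.Lib.H65D
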