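import Pool.Agent.Lib.Helper67.BN.Basic

/-!
# Homomorphisms from finitely presented groups are local
-/

set_option autoImplicit false

namespace Pool.Agent.Lib.H65D

open Pool.Agent.Lib.Helper67.BN (ball ball_mono one_mem_ball ball_mul ball_inv finite_T)

universe u w

theorem exists_mem_ball {E : Type u} [Group E] {S : Set E} (hS : Subgroup.closure S = ⊤) (g : E) :
    ∃ n, g ∈ ball S n := by
  have hg : g ∈ Subgroup.closure S := by rw [hS]; trivial
  induction hg using Subgroup.closure_induction with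
  | mem x hx => exact ⟨1, [x], by simp, by simpa using Or.inl hx, by simp⟩
  | one => exact ⟨0, one_mem_ball S 0⟩
  | mul x y _ _ h1 h2 =>
    obtain ⟨m, hm⟩ := h1
    obtain ⟨n, hn⟩ := h2
    exact ⟨m + n, ball_mul hm hn⟩
  | inv x _ h1 =>
    obtain ⟨m, hm⟩ := h1
    exact ⟨m, ball_inv hm⟩

/-- A map which is multiplicative on a ball extends to a homomorphism. -/
theorem exists_local (E : Type u) [Group E] [hfp : Group.IsFinitelyPresented E] {S : Set E}
    (hSf : S.Finite) (hS : Subgroup.closure S = ⊤) :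
    ∃ r0 : ℕ, ∀ (P : Type w) [Group P] (θ : E → P),
      (∀ s ∈ ball S r0, ∀ t ∈ ball S r0, θ (s * t) = θ s * θ t) →
        ∃ Θ : E →* P, ∀ s, (s ∈ S ∨ s⁻¹ ∈ S) → Θ s = θ s := by
  classical
  obtain ⟨n, φ, hφ, R, hRf, hR⟩ := hfp.out
  have h1 : ∀ i : Fin n, ∃ m, φ (FreeGroup.of i) ∈ ball S m := fun i => exists_mem_ball hS _
  choose m hm using h1
  obtain ⟨r1, hr1⟩ : ∃ r1, ∀ i, m i ≤ r1 := by
    obtain ⟨r1, h⟩ := (Set.finite_range m).bddAbove
    exact ⟨r1, fun i => h ⟨i, rfl⟩⟩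
  have h2 : ∀ g : E, ∃ w : List (Fin n × Bool), φ (FreeGroup.mk w) = g := by
    intro g
    obtain ⟨u, rfl⟩ := hφ g
    exact ⟨u.toWord, by rw [FreeGroup.mk_toWord]⟩
  choose w hw using h2
  obtain ⟨L1, hL1⟩ := ((finite_T hSf).image fun g => (w g).length).bddAbove
  obtain ⟨L2, hL2⟩ := (hRf.image fun g => g.toWord.length).bddAbove
  obtain ⟨L, hLa, hLb⟩ : ∃ L, L1 ≤ L ∧ L2 ≤ L := ⟨max L1 L2, le_max_left _ _, le_max_right _ _⟩
  refine ⟨(L + 1) * r1, fun P _ θ hθ => ?_⟩
  have hmono : ∀ k, k ≤ L + 1 → ∀ g, g ∈ ball S (k * r1) → g ∈ ball S ((L + 1) * r1) :=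
    fun k hk g hg => ball_mono (Nat.mul_le_mul_right r1 hk) hg
  have hone : θ 1 = 1 := by
    have h3 := hθ 1 (one_mem_ball S _) 1 (one_mem_ball S _)
    rw [one_mul] at h3
    exact left_eq_mul.1 h3
  have hinv : ∀ g ∈ ball S ((L + 1) * r1), θ g⁻¹ = (θ g)⁻¹ := by
    intro g hg
    have h3 := hθ g⁻¹ (ball_inv hg) g hg
    rw [inv_mul_cancel, hone] at h3
    exact eq_inv_of_mul_eq_one_left h3.symm
  let ψ : FreeGroup (Fin n) →* P := FreeGroup.lift fun i => θ (φ (FreeGroup.of i))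
  have hgen : ∀ i, φ (FreeGroup.of i) ∈ ball S r1 := fun i => ball_mono (hr1 i) (hm i)
  have hlet : ∀ x : Fin n × Bool, φ (FreeGroup.mk [x]) ∈ ball S r1 ∧
      ψ (FreeGroup.mk [x]) = θ (φ (FreeGroup.mk [x])) := by
    rintro ⟨i, b⟩
    have hbig : φ (FreeGroup.of i) ∈ ball S ((L + 1) * r1) :=
      hmono 1 (by omega) _ (by rw [one_mul]; exact hgen i)
    cases b with
    | true =>
      have h3 : (FreeGroup.mk [(i, true)] : FreeGroup (Fin n)) = FreeGroup.of i := rfl
      rw [h3]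
      exact ⟨hgen i, FreeGroup.lift_apply_of⟩
    | false =>
      have h3 : (FreeGroup.mk [(i, false)] : FreeGroup (Fin n)) = (FreeGroup.of i)⁻¹ := rfl
      rw [h3, map_inv, map_inv]
      refine ⟨ball_inv (hgen i), ?_⟩
      rw [hinv _ hbig]
      exact congrArg _ FreeGroup.lift_apply_of
  have key : ∀ v : List (Fin n × Bool), v.length ≤ L →
      φ (FreeGroup.mk v) ∈ ball S (v.length * r1) ∧
        ψ (FreeGroup.mk v) = θ (φ (FreeGroup.mk v)) := by
    intro v
    induction v with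
    | nil =>
      intro _
      rw [← FreeGroup.one_eq_mk, map_one, map_one, hone]
      exact ⟨one_mem_ball S _, rfl⟩
    | cons x v ih =>
      intro hv
      rw [List.length_cons] at hv
      obtain ⟨h3, h4⟩ := ih (by omega)
      have h5 : (FreeGroup.mk (x :: v) : FreeGroup (Fin n)) =
          FreeGroup.mk [x] * FreeGroup.mk v := by
        rw [FreeGroup.mul_mk]
        rfl
      rw [h5, map_mul, map_mul]
      constructor
      · have h6 := ball_mul (hlet x).1 h3
        refine ball_mono ?_ h6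
        rw [List.length_cons, Nat.succ_mul]
        omega
      · rw [(hlet x).2, h4, hθ _ (hmono 1 (by omega) _ (by rw [one_mul]; exact (hlet x).1)) _
          (hmono _ (by omega) _ h3)]
  have hker : φ.ker ≤ ψ.ker := by
    rw [← hR]
    apply Subgroup.normalClosure_le_normal
    intro r hr
    show r ∈ ψ.ker
    rw [MonoidHom.mem_ker]
    have h3 := (key r.toWord ((hL2 ⟨r, hr, rfl⟩).trans hLb)).2
    rw [FreeGroup.mk_toWord] at h3
    have h4 : r ∈ φ.ker := by
      rw [← hR]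
      exact Subgroup.subset_normalClosure hr
    rw [h3, MonoidHom.mem_ker.1 h4, hone]
  refine ⟨φ.liftOfSurjective hφ ⟨ψ, hker⟩, fun s hs => ?_⟩
  have h3 : (φ.liftOfSurjective hφ ⟨ψ, hker⟩) (φ (FreeGroup.mk (w s))) = ψ (FreeGroup.mk (w s)) :=
    MonoidHom.liftOfRightInverse_comp_apply φ _ _ ⟨ψ, hker⟩ _
  rw [hw] at h3
  rw [h3, (key (w s) ((hL1 ⟨s, hs, rfl⟩).trans hLa)).2, hw]

end Pool.Agent.Lib.H65D
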