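import Pool.Agent.Lib.H65D.Cuts
import Pool.Agent.Lib.H76.Pump.MainC

/-!
# Segments of the tree with finite side branches
-/

set_option autoImplicit false

namespace Pool.Agent.Lib.H65D

open Pool.Agent.Lib.Helper67.BN (ball orbitBall ball_mono one_mem_ball ball_mul ball_inv finite_T
  orbitBall_mono mem_orbitBall_self mem_ball_succ ball_finite)
open Pool.Agent.H76.Pump (SChain OB)

universe u v

variable {E : Type u} [Group E] {V : Type v} {π : E →* Equiv.Perm V} {S : Set E}
  {r b : ℕ} {f : V → Set V} {Θ : E →* Equiv.Perm (Lift f)}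

/-- The points of the orbit below the path `t`, but not below the path `u`. -/
def between (Θ : E →* Equiv.Perm (Lift f)) (x : V) (t u : List (Set V)) : Set (Lift f) :=
  {z | (∃ g, Θ g (base f x) = z) ∧ t <:+ z.st ∧ ¬ u <:+ z.st}

theorem suf_of_suffix {α : Type*} {t u : List α} (h : t <:+ u) : suf u t.length = t := by
  have h1 := h.length_le
  exact (List.suffix_of_suffix_length_le (suf_suffix u _) h (by rw [length_suf h1])).eq_of_length
    (length_suf h1)

/-- A segment with finite side branches gives a chain of finite sets. -/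
theorem LiftData.chain_of_segment (h : LiftData π S r b f Θ) (hS : Subgroup.closure S = ⊤)
    (x : V) (D N ρ n0 : ℕ)
    (hn0 : 1 ≤ n0) {u : List (Set V)} (hu : Reached Θ x u)
    (hlen : u.length = n0 + 2 * (ρ + 1 + N * (D + 1)))
    (hfin : (between Θ x (suf u n0) u).Finite) :
    let _ : MulAction E (Lift f) := MulAction.compHom (Lift f) Θ
    ∃ (g : E) (F : ℕ → Set (Lift f)), SChain S D (2 * b) (Θ g (base f x)) N F ∧
      OB S (Θ g (base f x)) ρ ⊆ F 0 ∧ ¬ MulAction.orbit E (Θ g (base f x)) ⊆ F N := by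
  intro _
  have hsm : ∀ (k : E) (z : Lift f), k • z = Θ k z := fun _ _ => rfl
  obtain ⟨M, hM⟩ : ∃ M, M = ρ + 1 + N * (D + 1) := ⟨_, rfl⟩
  rw [← hM] at hlen
  obtain ⟨m, hm⟩ : ∃ m, m = n0 + M := ⟨_, rfl⟩
  have hρM : ∀ k ≤ N, ρ + 1 + k * (D + 1) ≤ M := by
    intro k hk
    rw [hM]
    exact Nat.add_le_add_left (Nat.mul_le_mul_right _ hk) _
  -- the centre
  obtain ⟨g0, hg0⟩ := hu
  obtain ⟨c0, hc0⟩ := exists_mem_ball hS g0
  obtain ⟨k, s, hs, _, hc⟩ := h.good x c0 g0 hc0 (suf u m) (by rw [hg0]; exact suf_suffix _ _)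
    (by rw [length_suf (by omega)]; omega)
  have hcen : (Θ (s * k) (base f x)).st = suf u m := by
    rw [map_mul, Equiv.Perm.mul_apply, hc]
  have hlc : (suf u m).length = m := length_suf (by omega)
  let F : ℕ → Set (Lift f) := fun k =>
    between Θ x (suf u (m - (ρ + 1 + k * (D + 1)))) (suf u (m + (ρ + 1 + k * (D + 1))))
  have horb : ∀ (a : E) (z : Lift f), (∃ g, Θ g (base f x) = z) → ∃ g, Θ g (base f x) = Θ a z := by
    rintro a z ⟨g, rfl⟩
    exact ⟨a * g, by rw [map_mul]; rfl⟩
  refine ⟨s * k, F, ⟨?_, ?_, ?_⟩, ?_, ?_⟩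
  · -- the centre lies in `F 0`
    refine ⟨⟨s * k, rfl⟩, ?_, ?_⟩
    · rw [hcen]
      exact suf_suf (by omega) (by omega)
    · intro h1
      have h2 := h1.length_le
      have h3 := hρM 0 (Nat.zero_le _)
      rw [hcen, hlc, length_suf (by omega)] at h2
      omega
  · -- finiteness and boundaries
    intro i hi
    have hρi := hρM i hi
    constructor
    · refine hfin.subset ?_
      rintro z ⟨h1, h2, h3⟩
      refine ⟨h1, (suf_suf (by omega) (by omega)).trans h2, fun h4 => h3 ?_⟩
      exact (suf_suffix u _).trans h4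
    · have h1 : {v | v ∈ F i ∧ ∃ s, (s ∈ S ∨ s⁻¹ ∈ S) ∧ s • v ∉ F i} ⊆
          {z : Lift f | z.st = suf u (m - (ρ + 1 + i * (D + 1)))} ∪
            {z : Lift f | z.st = (suf u (m + (ρ + 1 + i * (D + 1)))).tail} := by
        rintro z ⟨⟨h1, h2, h3⟩, a, ha, h4⟩
        rw [hsm] at h4
        by_cases h5 : suf u (m - (ρ + 1 + i * (D + 1))) <:+ (Θ a z).st
        · have h6 : suf u (m + (ρ + 1 + i * (D + 1))) <:+ (Θ a z).st := by
            by_contra h6
            exact h4 ⟨horb a z h1, h5, h6⟩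
          right
          rw [h.st_gen ha] at h6
          rcases suffix_of_suffix_push h6 z.ne_nil with h7 | ⟨h7, h8⟩
          · exact absurd h7 h3
          · show z.st = _
            rw [h7, h8, List.tail_cons]
        · left
          rw [h.st_gen ha] at h5
          rcases suffix_push_or (j := f (π a z.pt)) h2 (suf_ne_nil (by omega) (by omega)) with h6 | h6
          · exact h6.symm
          · exact absurd h6 h5
      obtain ⟨h2, h3⟩ := h.fiber_card (suf u (m - (ρ + 1 + i * (D + 1))))
      obtain ⟨h4, h5⟩ := h.fiber_card (suf u (m + (ρ + 1 + i * (D + 1)))).tail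
      have h6 := Set.ncard_le_ncard h1 (h2.union h4)
      have h7 := Set.ncard_union_le {z : Lift f | z.st = suf u (m - (ρ + 1 + i * (D + 1)))}
        {z : Lift f | z.st = (suf u (m + (ρ + 1 + i * (D + 1)))).tail}
      omega
  · -- neighbourhoods
    rintro i hi z ⟨h1, h2, h3⟩ _ ⟨a, ha, rfl⟩
    rw [hsm]
    have ha' : a ∈ ball S D := ha
    have hρi := hρM i (by omega)
    have hρi' := hρM (i + 1) (by omega)
    have he : ρ + 1 + (i + 1) * (D + 1) = ρ + 1 + i * (D + 1) + (D + 1) := by ring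
    rw [he] at hρi'
    show Θ a z ∈ between Θ x (suf u (m - (ρ + 1 + (i + 1) * (D + 1))))
      (suf u (m + (ρ + 1 + (i + 1) * (D + 1))))
    rw [he]
    refine ⟨horb a z h1, ?_, fun h4 => h3 ?_⟩
    · apply h.stay D a ha' z _ (suf_ne_nil (by omega) (by omega))
      · exact (suf_suf (by omega) (by omega)).trans h2
      · have h4 := h2.length_le
        rw [length_suf (by omega)] at h4
        rw [length_suf (by omega)]
        omega
    · have h5 := h.stay D a⁻¹ (ball_inv ha') (Θ a z) (suf u (m + (ρ + 1 + i * (D + 1))))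
        (suf_ne_nil (by omega) (by omega)) ((suf_suf (by omega) (by omega)).trans h4) (by
          have h6 := h4.length_le
          rw [length_suf (by omega)] at h6
          rw [length_suf (by omega)]
          omega)
      rwa [LiftData.inv_apply'] at h5
  · -- the ball around the centre
    rintro _ ⟨a, ha, rfl⟩
    rw [hsm]
    have ha' : a ∈ ball S ρ := ha
    have hρ0 := hρM 0 (Nat.zero_le _)
    rw [zero_mul, add_zero] at hρ0
    show Θ a (Θ (s * k) (base f x)) ∈ between Θ x (suf u (m - (ρ + 1 + 0 * (D + 1))))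
      (suf u (m + (ρ + 1 + 0 * (D + 1))))
    rw [zero_mul, add_zero]
    refine ⟨horb a _ ⟨_, rfl⟩, ?_, fun h4 => ?_⟩
    · apply h.stay ρ a ha' _ _ (suf_ne_nil (by omega) (by omega))
      · rw [hcen]
        exact suf_suf (by omega) (by omega)
      · rw [length_suf (by omega), hcen, hlc]
        omega
    · have h5 := h.stay ρ a⁻¹ (ball_inv ha') (Θ a (Θ (s * k) (base f x))) (suf u (m + 1))
        (suf_ne_nil (by omega) (by omega)) ((suf_suf (by omega) (by omega)).trans h4) (by
          have h6 := h4.length_le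
          rw [length_suf (by omega)] at h6
          rw [length_suf (by omega)]
          omega)
      rw [LiftData.inv_apply', hcen] at h5
      have h6 := h5.length_le
      rw [length_suf (by omega), hlc] at h6
      omega
  · -- the last set does not contain the orbit
    intro hsub
    have h1 : Θ g0 (base f x) ∈ MulAction.orbit E (Θ (s * k) (base f x)) := by
      refine ⟨g0 * (s * k)⁻¹, ?_⟩
      show Θ (g0 * (s * k)⁻¹) (Θ (s * k) (base f x)) = _
      rw [← Equiv.Perm.mul_apply, ← map_mul, inv_mul_cancel_right]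
    obtain ⟨_, _, h2⟩ := hsub h1
    apply h2
    rw [hg0]
    exact suf_suffix _ _

theorem LiftData.reached_suffix (h : LiftData π S r b f Θ) (hS : Subgroup.closure S = ⊤) {x : V}
    {u t : List (Set V)} (hu : Reached Θ x u) (ht : t <:+ u) (hlen : 2 ≤ t.length) :
    Reached Θ x t := by
  obtain ⟨g, hg⟩ := hu
  obtain ⟨m, hm⟩ := exists_mem_ball hS g
  obtain ⟨k, s, _, _, h1⟩ := h.good x m g hm t (by rw [hg]; exact ht) hlen
  exact ⟨s * k, by rw [map_mul]; exact h1⟩

/-- Either there is a segment with finite side branches, or the growth is exponential. -/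
theorem LiftData.segment_or (h : LiftData π S r b f Θ) (hSf : S.Finite)
    (hS : Subgroup.closure S = ⊤) (x : V) {ℓ : ℕ} (hℓ : 1 ≤ ℓ)
    (hbig : ∃ g, ℓ + 1 ≤ (Θ g (base f x)).st.length) :
    (∃ (n0 : ℕ) (u : List (Set V)), 1 ≤ n0 ∧ Reached Θ x u ∧ u.length = n0 + ℓ ∧
      (between Θ x (suf u n0) u).Finite) ∨
    ∀ k : ℕ, 2 ^ k ≤ (ball S (k * ℓ * (r * b + 1) + r * b)).ncard := by
  classical
  by_cases hcase : ∃ (n0 : ℕ) (u : List (Set V)), 1 ≤ n0 ∧ Reached Θ x u ∧ u.length = n0 + ℓ ∧
      (between Θ x (suf u n0) u).Finite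
  · exact Or.inl hcase
  right
  have hinf : ∀ t u : List (Set V), 1 ≤ t.length → t <:+ u → Reached Θ x u →
      u.length = t.length + ℓ → (between Θ x t u).Infinite := by
    intro t u h1 h2 h3 h4 h5
    apply hcase
    refine ⟨t.length, u, h1, h3, h4, ?_⟩
    rwa [suf_of_suffix h2]
  have hroot : ∀ g, [f x] <:+ (Θ g (base f x)).st := by
    intro g
    obtain ⟨m, hm⟩ := exists_mem_ball hS g
    exact h.root_suffix x m g hm
  let Inf : List (Set V) → Prop := fun t =>
    {z : Lift f | (∃ g, Θ g (base f x) = z) ∧ t <:+ z.st}.Infinite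
  have hstep : ∀ t, 1 ≤ t.length → Inf t → ∃ t1 t2, t1 ≠ t2 ∧
      (Reached Θ x t1 ∧ t <:+ t1 ∧ t1.length = t.length + ℓ ∧ Inf t1) ∧
      (Reached Θ x t2 ∧ t <:+ t2 ∧ t2.length = t.length + ℓ ∧ Inf t2) := by
    intro t ht1 hti
    have hdist : ∀ z : Lift f, (∃ g, Θ g (base f x) = z) → ∃ g ∈ ball S
        ((z.st.length - 1) * (r * b + 1) + r * b), Θ g (base f x) = z := by
      rintro z ⟨g, rfl⟩
      have h3 : 1 ≤ (Θ g (base f x)).st.length :=
        Nat.one_le_iff_ne_zero.2 fun h0 => (Θ g (base f x)).ne_nil (List.length_eq_zero_iff.1 h0)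
      exact h.dist hS x _ _ ⟨g, rfl⟩ (by omega) _ rfl
    -- short paths
    have hsh : {z : Lift f | (∃ g, Θ g (base f x) = z) ∧ z.st.length ≤ t.length + ℓ}.Finite := by
      refine ((ball_finite hSf ((t.length + ℓ) * (r * b + 1) + r * b)).image
        fun g => Θ g (base f x)).subset ?_
      rintro z ⟨h1, h2⟩
      obtain ⟨g, hg, h3⟩ := hdist z h1
      refine ⟨g, ball_mono ?_ hg, h3⟩
      apply Nat.add_le_add_right
      apply Nat.mul_le_mul_right
      omega
    have hU : {t1 : List (Set V) | Reached Θ x t1 ∧ t1.length = t.length + ℓ}.Finite := by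
      refine (hsh.image Lift.st).subset ?_
      rintro t1 ⟨⟨g, hg⟩, h2⟩
      exact ⟨Θ g (base f x), ⟨⟨g, rfl⟩, by rw [hg, h2]⟩, hg⟩
    have hcov : ∀ (P : List (Set V) → Prop) (A : Set (Lift f)), A.Infinite →
        (∀ z ∈ A, (∃ g, Θ g (base f x) = z) ∧ t <:+ z.st ∧ (t.length + ℓ ≤ z.st.length →
          P (suf z.st (t.length + ℓ)))) →
        ∃ t1, P t1 ∧ Reached Θ x t1 ∧ t <:+ t1 ∧ t1.length = t.length + ℓ ∧ Inf t1 := by
      intro P A hA hP
      by_contra hcon
      push Not at hcon
      apply hA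
      have h1 : A ⊆ {z : Lift f | (∃ g, Θ g (base f x) = z) ∧ z.st.length ≤ t.length + ℓ} ∪
          ⋃ t1 ∈ {t1 : List (Set V) | Reached Θ x t1 ∧ t1.length = t.length + ℓ},
            {z : Lift f | ((∃ g, Θ g (base f x) = z) ∧ t1 <:+ z.st) ∧ ¬ Inf t1} := by
        intro z hz
        obtain ⟨h2, h3, h4⟩ := hP z hz
        by_cases h5 : z.st.length ≤ t.length + ℓ
        · exact Or.inl ⟨h2, h5⟩
        · right
          push Not at h5
          have h6 : (suf z.st (t.length + ℓ)).length = t.length + ℓ := length_suf h5.le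
          have h7 : Reached Θ x (suf z.st (t.length + ℓ)) := by
            obtain ⟨g, hg⟩ := h2
            exact h.reached_suffix hS ⟨g, rfl⟩ (by rw [hg]; exact suf_suffix _ _)
              (by rw [h6]; omega)
          have h8 : t <:+ suf z.st (t.length + ℓ) :=
            List.suffix_of_suffix_length_le h3 (suf_suffix _ _) (by omega)
          rw [Set.mem_iUnion₂]
          refine ⟨_, ⟨h7, h6⟩, ⟨h2, suf_suffix _ _⟩, ?_⟩
          exact hcon _ (h4 h5.le) h7 h8 h6
      refine (hsh.union (hU.biUnion fun t1 _ => ?_)).subset h1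
      by_cases h2 : Inf t1
      · refine (Set.finite_empty).subset ?_
        rintro z ⟨_, h3⟩
        exact absurd h2 h3
      · refine (Set.not_infinite.1 h2).subset ?_
        rintro z ⟨h3, _⟩
        exact h3
    obtain ⟨t1, _, h1, h2, h3, h4⟩ := hcov (fun _ => True) _ hti
      (fun z hz => ⟨hz.1, hz.2, fun _ => trivial⟩)
    have h5 := hinf t t1 ht1 h2 h1 h3
    obtain ⟨t2, h6, h7, h8, h9, h10⟩ := hcov (fun t2 => t2 ≠ t1) _ h5
      (fun z hz => ⟨hz.1, hz.2.1, fun _ h6 => hz.2.2 (by rw [← h6]; exact suf_suffix _ _)⟩)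
    exact ⟨t1, t2, h6.symm, ⟨h1, h2, h3, h4⟩, h7, h8, h9, h10⟩
  -- the orbit is infinite
  have hInf0 : Inf [f x] := by
    obtain ⟨g, hg⟩ := hbig
    have h1 : (suf (Θ g (base f x)).st (ℓ + 1)).length = ℓ + 1 := length_suf hg
    have h2 := hinf [f x] (suf (Θ g (base f x)).st (ℓ + 1)) (by simp)
      (List.suffix_of_suffix_length_le (hroot g) (suf_suffix _ _) (by rw [h1]; simp))
      (h.reached_suffix hS ⟨g, rfl⟩ (suf_suffix _ _) (by omega)) (by rw [h1]; simp; omega)
    refine h2.mono ?_
    rintro z ⟨h3, h4, _⟩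
    exact ⟨h3, h4⟩
  have main : ∀ k : ℕ, ∃ T : Finset (List (Set V)), T.card = 2 ^ k ∧ ∀ t ∈ T,
      t.length = k * ℓ + 1 ∧ Reached Θ x t ∧ Inf t := by
    intro k
    induction k with
    | zero =>
      refine ⟨{[f x]}, by simp, fun t ht => ?_⟩
      rw [Finset.mem_singleton] at ht
      subst ht
      exact ⟨by simp, ⟨1, by rw [map_one]; rfl⟩, hInf0⟩
    | succ k ih =>
      obtain ⟨T, hT, hT'⟩ := ih
      have h1 : ∀ t : List (Set V), ∃ t1 t2, t ∈ T → t1 ≠ t2 ∧
          (Reached Θ x t1 ∧ t <:+ t1 ∧ t1.length = t.length + ℓ ∧ Inf t1) ∧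
          (Reached Θ x t2 ∧ t <:+ t2 ∧ t2.length = t.length + ℓ ∧ Inf t2) := by
        intro t
        by_cases ht : t ∈ T
        · obtain ⟨h2, _, h4⟩ := hT' t ht
          obtain ⟨t1, t2, h5⟩ := hstep t (by omega) h4
          exact ⟨t1, t2, fun _ => h5⟩
        · exact ⟨t, t, fun h => absurd h ht⟩
      choose t1 t2 h12 using h1
      refine ⟨T.biUnion fun t => {t1 t, t2 t}, ?_, ?_⟩
      · rw [Finset.card_biUnion]
        · rw [Finset.sum_congr rfl fun t ht => Finset.card_pair (h12 t ht).1, Finset.sum_const,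
            hT, smul_eq_mul, pow_succ]
        · intro t ht t' ht' hne
          show Disjoint ({t1 t, t2 t} : Finset (List (Set V))) {t1 t', t2 t'}
          rw [Finset.disjoint_left]
          intro w hw hw'
          apply hne
          have h2 : t <:+ w := by
            rw [Finset.mem_insert, Finset.mem_singleton] at hw
            rcases hw with rfl | rfl
            · exact (h12 t ht).2.1.2.1
            · exact (h12 t ht).2.2.2.1
          have h3 : t' <:+ w := by
            rw [Finset.mem_insert, Finset.mem_singleton] at hw'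
            rcases hw' with rfl | rfl
            · exact (h12 t' ht').2.1.2.1
            · exact (h12 t' ht').2.2.2.1
          have h4 := (hT' t ht).1
          have h5 := (hT' t' ht').1
          exact (List.suffix_of_suffix_length_le h2 h3 (by omega)).eq_of_length (by omega)
      · intro w hw
        rw [Finset.mem_biUnion] at hw
        obtain ⟨t, ht, hw⟩ := hw
        have h4 := (hT' t ht).1
        rw [Finset.mem_insert, Finset.mem_singleton] at hw
        rcases hw with rfl | rfl
        · obtain ⟨_, ⟨h5, _, h6, h7⟩, _⟩ := h12 t ht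
          refine ⟨?_, h5, h7⟩
          rw [h6, h4]
          ring
        · obtain ⟨_, _, ⟨h5, _, h6, h7⟩⟩ := h12 t ht
          refine ⟨?_, h5, h7⟩
          rw [h6, h4]
          ring
  intro k
  obtain ⟨T, hT, hT'⟩ := main k
  have h1 : (T : Set (List (Set V))) ⊆ (fun g => (Θ g (base f x)).st) ''
      ball S (k * ℓ * (r * b + 1) + r * b) := by
    intro t ht
    obtain ⟨h2, h3, _⟩ := hT' t ht
    obtain ⟨g, hg⟩ := h3
    obtain ⟨g', h4, h5⟩ := h.dist hS x (k * ℓ) t ⟨g, hg⟩ h2 (Θ g (base f x)) hg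
    refine ⟨g', h4, ?_⟩
    show (Θ g' (base f x)).st = t
    rw [h5, hg]
  have h2 := Set.ncard_le_ncard h1 ((ball_finite hSf _).image _)
  rw [Set.ncard_coe_finset, hT] at h2
  exact h2.trans (Set.ncard_image_le (ball_finite hSf _))

end Pool.Agent.Lib.H65D
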