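import Pool.Agent.Lib.H65D.Local

/-!
# Lifting an action along a one-dimensional cover

`f : V → I` assigns to every point the index of a piece. If among the indices of `x`, `t x`,
`s t x` (for short `s`, `t`) at most two are different, the action lifts to the set of pairs
`(x, l)`, where `l` is a reduced path of indices which ends at `f x`.
-/

set_option autoImplicit false

namespace Pool.Agent.Lib.H65D

open Pool.Agent.Lib.Helper67.BN (ball ball_mono one_mem_ball ball_mul ball_inv finite_T)

universe u v w

section push

variable {I : Type w}

open Classical in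
/-- Go to `j` from the path `l` (the current vertex is the head of `l`). -/
noncomputable def push (j : I) : List I → List I
  | [] => [j]
  | [i] => if i = j then [i] else [j, i]
  | i :: k :: l => if i = j then i :: k :: l else if k = j then k :: l else j :: i :: k :: l

/-- Reduced paths. -/
def Red : List I → Prop
  | [] => False
  | [_] => True
  | [i, k] => i ≠ k
  | i :: k :: m :: l => i ≠ k ∧ i ≠ m ∧ Red (k :: m :: l)

theorem head_push (j : I) (l : List I) : (push j l).head? = some j := by
  match l with
  | [] => rfl
  | [i] =>
    by_cases h : i = j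
    · simp [push, h]
    · simp [push, h]
  | i :: k :: l =>
    by_cases h : i = j
    · simp [push, h]
    · by_cases h' : k = j
      · simp [push, h, h']
      · simp [push, h, h']

theorem Red.ne_nil {l : List I} (h : Red l) : l ≠ [] := by
  rintro rfl
  exact h

theorem red_tail {i k : I} {l : List I} (h : Red (i :: k :: l)) : Red (k :: l) := by
  match l with
  | [] => trivial
  | m :: l => exact h.2.2

theorem red_push (j : I) {l : List I} (h : Red l) : Red (push j l) := by
  match l with
  | [] => exact absurd h id
  | [i] =>
    by_cases hij : i = j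
    · simp only [push, hij, if_true]
      trivial
    · simp only [push, hij, if_false]
      exact fun h' => hij h'.symm
  | i :: k :: l =>
    by_cases hij : i = j
    · simp only [push, hij, if_true]
      rw [← hij]
      exact h
    · by_cases hkj : k = j
      · simp only [push, hij, hkj, if_true, if_false]
        rw [← hkj]
        exact red_tail h
      · simp only [push, hij, hkj, if_false]
        exact ⟨fun h' => hij h'.symm, fun h' => hkj h'.symm, h⟩

theorem push_head {a : I} {l : List I} (ha : l.head? = some a) : push a l = l := by
  match l with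
  | [] => simp at ha
  | [i] =>
    have : i = a := by simpa using ha
    simp [push, this]
  | i :: k :: l =>
    have : i = a := by simpa using ha
    simp [push, this]

theorem push_push_cancel {a : I} {l : List I} (h : Red l) (ha : l.head? = some a) (j : I) :
    push a (push j l) = l := by
  match l with
  | [] => simp at ha
  | [i] =>
    have hia : i = a := by simpa using ha
    subst hia
    by_cases hij : i = j
    · simp [push, hij]
    · simp [push, hij, Ne.symm hij]
  | [i, k] =>
    have hia : i = a := by simpa using ha
    subst hia
    by_cases hij : i = j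
    · simp [push, hij]
    · by_cases hkj : k = j
      · simp [push, hij, hkj, Ne.symm hij]
      · simp [push, hij, hkj, Ne.symm hij]
  | i :: k :: m :: l =>
    have hia : i = a := by simpa using ha
    subst hia
    obtain ⟨h1, h2, h3⟩ := h
    by_cases hij : i = j
    · simp [push, hij]
    · by_cases hkj : k = j
      · simp [push, hij, hkj, Ne.symm hij, Ne.symm h2]
      · simp [push, hij, hkj, Ne.symm hij]

theorem push_push {a b c : I} {l : List I} (h : Red l) (ha : l.head? = some a)
    (habc : a = b ∨ b = c ∨ a = c) : push c (push b l) = push c l := by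
  rcases habc with rfl | rfl | rfl
  · rw [push_head ha]
  · exact push_head (head_push _ _)
  · rw [push_push_cancel h ha, push_head ha]

theorem suffix_push_or {j : I} {l u : List I} (h : u <:+ l) (hu : u ≠ []) :
    u = l ∨ u <:+ push j l := by
  match l with
  | [] => exact Or.inl (List.suffix_nil.1 h)
  | [i] =>
    rcases List.suffix_cons_iff.1 h with h1 | h1
    · exact Or.inl h1
    · exact absurd (List.suffix_nil.1 h1) hu
  | i :: k :: l =>
    by_cases hij : i = j
    · right
      simp only [push, hij, if_true]
      rw [← hij]
      exact h
    · by_cases hkj : k = j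
      · rcases List.suffix_cons_iff.1 h with h1 | h1
        · exact Or.inl h1
        · right
          simp only [push, hij, hkj, if_true, if_false]
          rw [← hkj]
          exact h1
      · right
        simp only [push, hij, hkj, if_false]
        exact h.trans (List.suffix_cons j _)

theorem suffix_of_suffix_push {j : I} {l u : List I} (h : u <:+ push j l) (hl : l ≠ []) :
    u <:+ l ∨ (u = push j l ∧ push j l = j :: l) := by
  match l with
  | [] => exact absurd rfl hl
  | [i] =>
    by_cases hij : i = j
    · simp only [push, hij, if_true] at h ⊢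
      exact Or.inl h
    · simp only [push, hij, if_false] at h ⊢
      rcases List.suffix_cons_iff.1 h with h1 | h1
      · exact Or.inr ⟨h1, trivial⟩
      · exact Or.inl h1
  | i :: k :: l =>
    by_cases hij : i = j
    · simp only [push, hij, if_true] at h ⊢
      exact Or.inl h
    · by_cases hkj : k = j
      · simp only [push, hij, hkj, if_true, if_false] at h ⊢
        exact Or.inl (h.trans (List.suffix_cons i _))
      · simp only [push, hij, hkj, if_false] at h ⊢
        rcases List.suffix_cons_iff.1 h with h1 | h1
        · exact Or.inr ⟨h1, trivial⟩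
        · exact Or.inl h1

theorem push_cases (j : I) (l : List I) (hl : l ≠ []) : push j l = l ∨ push j l = j :: l ∨
    ∃ i, l = i :: push j l := by
  match l with
  | [] => exact absurd rfl hl
  | [i] =>
    by_cases hij : i = j
    · simp [push, hij]
    · simp [push, hij]
  | i :: k :: l =>
    by_cases hij : i = j
    · simp [push, hij]
    · by_cases hkj : k = j
      · simp [push, hij, hkj]
      · simp [push, hij, hkj]

end push

section lift

variable {E : Type u} [Group E] {V : Type v} {I : Type w} (f : V → I)

/-- The lifted set. -/
def Lift : Type (max v w) := {z : V × List I // Red z.2 ∧ z.2.head? = some (f z.1)}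

variable {f}

/-- The point below. -/
def Lift.pt (z : Lift f) : V := z.1.1

/-- The path. -/
def Lift.st (z : Lift f) : List I := z.1.2

theorem Lift.ext' {z z' : Lift f} (h1 : z.pt = z'.pt) (h2 : z.st = z'.st) : z = z' :=
  Subtype.ext (Prod.ext h1 h2)

theorem Lift.red (z : Lift f) : Red z.st := z.2.1

theorem Lift.head (z : Lift f) : z.st.head? = some (f z.pt) := z.2.2

theorem Lift.ne_nil (z : Lift f) : z.st ≠ [] := z.red.ne_nil

/-- The base point over `x`. -/
def base (f : V → I) (x : V) : Lift f := ⟨(x, [f x]), trivial, rfl⟩

/-- Move to the point `y`. -/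
noncomputable def move (y : V) (z : Lift f) : Lift f :=
  ⟨(y, push (f y) z.st), red_push _ z.red, head_push _ _⟩

@[simp] theorem pt_move (y : V) (z : Lift f) : (move y z).pt = y := rfl

@[simp] theorem st_move (y : V) (z : Lift f) : (move y z).st = push (f y) z.st := rfl

/-- The lifted permutation. -/
noncomputable def theta (π : E →* Equiv.Perm V) (f : V → I) (g : E) : Equiv.Perm (Lift f) where
  toFun z := move (π g z.pt) z
  invFun z := move (π g⁻¹ z.pt) z
  left_inv z := by
    have h1 : π g⁻¹ (π g z.pt) = z.pt := by
      rw [← Equiv.Perm.mul_apply, ← map_mul, inv_mul_cancel, map_one, Equiv.Perm.one_apply]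
    apply Lift.ext'
    · simp only [pt_move, h1]
    · simp only [pt_move, st_move, h1]
      exact push_push_cancel z.red z.head _
  right_inv z := by
    have h1 : π g (π g⁻¹ z.pt) = z.pt := by
      rw [← Equiv.Perm.mul_apply, ← map_mul, mul_inv_cancel, map_one, Equiv.Perm.one_apply]
    apply Lift.ext'
    · simp only [pt_move, h1]
    · simp only [pt_move, st_move, h1]
      exact push_push_cancel z.red z.head _

theorem theta_apply (π : E →* Equiv.Perm V) (g : E) (z : Lift f) :
    theta π f g z = move (π g z.pt) z := rfl

/-- The lift of the action. -/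
theorem exists_lift [Group.IsFinitelyPresented E] {S : Set E} (hSf : S.Finite)
    (hS : Subgroup.closure S = ⊤) : ∃ r0 : ℕ, ∀ (V : Type v) (I : Type w)
    (π : E →* Equiv.Perm V) (f : V → I),
    (∀ s ∈ ball S r0, ∀ t ∈ ball S r0, ∀ x, f x = f (π t x) ∨ f (π t x) = f (π (s * t) x) ∨
      f x = f (π (s * t) x)) →
    ∃ Θ : E →* Equiv.Perm (Lift f), (∀ s, (s ∈ S ∨ s⁻¹ ∈ S) → ∀ z, Θ s z = move (π s z.pt) z) ∧
      ∀ g z, (Θ g z).pt = π g z.pt := by
  obtain ⟨r0, h⟩ := exists_local.{u, max v w} E hSf hS
  refine ⟨r0, fun V I π f hf => ?_⟩
  obtain ⟨Θ, hΘ⟩ := h (Equiv.Perm (Lift f)) (theta π f) (by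
    intro s hs t ht
    refine Equiv.ext fun z => ?_
    rw [Equiv.Perm.mul_apply, theta_apply, theta_apply, theta_apply]
    apply Lift.ext'
    · simp only [pt_move, map_mul, Equiv.Perm.mul_apply]
    · simp only [pt_move, st_move]
      have h1 : π s (π t z.pt) = π (s * t) z.pt := by rw [map_mul, Equiv.Perm.mul_apply]
      rw [h1]
      exact (push_push z.red z.head (hf s hs t ht z.pt)).symm)
  refine ⟨Θ, fun s hs z => by rw [hΘ s hs]; rfl, fun g => ?_⟩
  have hg : g ∈ Subgroup.closure S := by rw [hS]; trivial
  induction hg using Subgroup.closure_induction with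
  | mem x hx =>
    intro z
    rw [hΘ x (Or.inl hx)]
    rfl
  | one =>
    intro z
    rw [map_one, map_one]
    rfl
  | mul x y _ _ h1 h2 =>
    intro z
    rw [map_mul, map_mul, Equiv.Perm.mul_apply, Equiv.Perm.mul_apply, h1, h2]
  | inv x _ h1 =>
    intro z
    have h2 := h1 (Θ x⁻¹ z)
    rw [← Equiv.Perm.mul_apply, ← map_mul, mul_inv_cancel, map_one, Equiv.Perm.one_apply] at h2
    rw [h2, ← Equiv.Perm.mul_apply, ← map_mul, inv_mul_cancel, map_one, Equiv.Perm.one_apply]

end lift

end Pool.Agent.Lib.H65D
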