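import Pool.Agent.Lib.H65D.Stack
import Pool.Agent.Lib.H65D.Cover

/-!
# The lifted action: fibres, distances, leaving a subtree
-/

set_option autoImplicit false

namespace Pool.Agent.Lib.H65D

open Pool.Agent.Lib.Helper67.BN (ball orbitBall ball_mono one_mem_ball ball_mul ball_inv finite_T
  orbitBall_mono mem_orbitBall_self mem_ball_succ ball_finite)

universe u v

/-- The lifted action. -/
structure LiftData {E : Type u} [Group E] {V : Type v} (π : E →* Equiv.Perm V) (S : Set E)
    (r b : ℕ) (f : V → Set V) (Θ : E →* Equiv.Perm (Lift f)) : Prop where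
  pieces : Pieces π S r b f
  gen : ∀ s, (s ∈ S ∨ s⁻¹ ∈ S) → ∀ z, Θ s z = move (π s z.pt) z
  pt : ∀ g z, (Θ g z).pt = π g z.pt

/-- Among the pieces of three close points at most two are different. -/
theorem Pieces.two {E : Type u} [Group E] {V : Type v} {π : E →* Equiv.Perm V} {S : Set E}
    {r b : ℕ} {f : V → Set V} (h : Pieces π S r b f) {s t : E} (hs : s ∈ ball S r)
    (ht : t ∈ ball S r) (x : V) :
    f x = f (π t x) ∨ f (π t x) = f (π (s * t) x) ∨ f x = f (π (s * t) x) := by
  apply h.mult x (π t x) (π (s * t) x) x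
  · exact h.ball_sub x (mem_orbitBall_self π S x _)
  · apply h.ball_sub
    exact orbitBall_symm ⟨t, ball_mono (by omega) ht, rfl⟩
  · apply h.ball_sub
    refine orbitBall_symm ⟨s * t, ?_, rfl⟩
    rw [two_mul]
    exact ball_mul hs ht

/-- Existence of the lifted action. -/
theorem exists_liftData {E : Type u} [Group E] [Group.IsFinitelyPresented E] {S : Set E}
    (hSf : S.Finite) (hS : Subgroup.closure S = ⊤) : ∃ r : ℕ, 1 ≤ r ∧ ∀ (V : Type v)
    (π : E →* Equiv.Perm V) (b : ℕ) (f : V → Set V), Pieces π S r b f →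
      ∃ Θ : E →* Equiv.Perm (Lift f), LiftData π S r b f Θ := by
  obtain ⟨r0, h⟩ := exists_lift.{u, v, v} hSf hS
  refine ⟨r0 + 1, by omega, fun V π b f hf => ?_⟩
  obtain ⟨Θ, h1, h2⟩ := h V (Set V) π f (fun s hs t ht x =>
    hf.two (ball_mono (Nat.le_succ _) hs) (ball_mono (Nat.le_succ _) ht) x)
  exact ⟨Θ, hf, h1, h2⟩

namespace LiftData

variable {E : Type u} [Group E] {V : Type v} {π : E →* Equiv.Perm V} {S : Set E}
  {r b : ℕ} {f : V → Set V} {Θ : E →* Equiv.Perm (Lift f)}

/-- Elements of the ball of radius `r` move as the generators do. -/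
theorem ball_move (h : LiftData π S r b f Θ) : ∀ n ≤ r, ∀ g ∈ ball S n, ∀ z,
    Θ g z = move (π g z.pt) z := by
  intro n
  induction n with
  | zero =>
    intro _ g hg z
    rw [Pool.Agent.Lib.Helper67.BN.ball_zero] at hg
    obtain rfl : g = 1 := hg
    rw [map_one, map_one]
    apply Lift.ext'
    · rfl
    · rw [st_move]
      exact (push_head z.head).symm
  | succ n ih =>
    intro hn g hg z
    rcases mem_ball_succ.1 hg with hg | ⟨s, k, hs, hk, rfl⟩
    · exact ih (by omega) g hg z
    · rw [map_mul, Equiv.Perm.mul_apply, ih (by omega) k hk z, h.gen s hs]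
      have h1 : π s (π k z.pt) = π (s * k) z.pt := by rw [map_mul]; rfl
      apply Lift.ext'
      · simp only [pt_move, h1]
      · simp only [pt_move, st_move, h1]
        apply push_push z.red z.head
        refine h.pieces.two ?_ (ball_mono (by omega) hk) z.pt
        refine ⟨[s], ?_, fun x hx => ?_, by simp⟩
        · rw [List.length_singleton]
          omega
        · rw [List.mem_singleton] at hx
          rwa [hx]

/-- Points with the same path are close. -/
theorem fiber (h : LiftData π S r b f Θ) {z z' : Lift f} (hzz : z.st = z'.st) :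
    ∃ g ∈ ball S (r * b), Θ g z = z' := by
  have hff : f z.pt = f z'.pt := by
    have h1 := z.head
    rw [hzz, z'.head] at h1
    exact (Option.some.inj h1).symm
  have hself : ∀ x, x ∈ f x := fun x => h.pieces.ball_sub x (mem_orbitBall_self π S x _)
  obtain ⟨n, hn, p, hp0, hpn, hpm, hps⟩ := h.pieces.conn z.pt z.pt z'.pt (hself _)
    (by rw [hff]; exact hself _)
  have key : ∀ i ≤ n, ∃ g ∈ ball S (r * i), Θ g z = move (p i) z := by
    intro i
    induction i with
    | zero =>
      intro _
      refine ⟨1, one_mem_ball S _, ?_⟩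
      rw [map_one, hp0]
      apply Lift.ext'
      · rfl
      · rw [st_move]
        exact (push_head z.head).symm
    | succ i ih =>
      intro hi
      obtain ⟨g, hg, h1⟩ := ih (by omega)
      obtain ⟨k, hk, h2⟩ := hps i (by omega)
      refine ⟨k * g, ?_, ?_⟩
      · have h3 := ball_mul hk hg
        refine ball_mono (le_of_eq ?_) h3
        ring
      · rw [map_mul, Equiv.Perm.mul_apply, h1, h.ball_move r le_rfl k hk]
        apply Lift.ext'
        · simp only [pt_move, h2]
        · simp only [pt_move, st_move, h2]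
          apply push_push z.red z.head
          apply h.pieces.mult z.pt (p i) (p (i + 1)) (p i) (hpm i (by omega)) (hself _)
          apply h.pieces.ball_sub
          exact orbitBall_mono (by omega) (orbitBall_symm ⟨k, hk, h2⟩)
  obtain ⟨g, hg, h1⟩ := key n le_rfl
  refine ⟨g, ball_mono (Nat.mul_le_mul_left r hn) hg, ?_⟩
  rw [h1, hpn]
  apply Lift.ext'
  · rfl
  · rw [st_move, ← hff, push_head z.head, hzz]

theorem st_gen (h : LiftData π S r b f Θ) {s : E} (hs : s ∈ S ∨ s⁻¹ ∈ S) (z : Lift f) :
    (Θ s z).st = push (f (π s z.pt)) z.st := by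
  rw [h.gen s hs, st_move]

/-- The last entry of the path is constant. -/
theorem root_suffix (h : LiftData π S r b f Θ) (x : V) : ∀ n, ∀ g ∈ ball S n,
    [f x] <:+ (Θ g (base f x)).st := by
  intro n
  induction n with
  | zero =>
    intro g hg
    rw [Pool.Agent.Lib.Helper67.BN.ball_zero] at hg
    obtain rfl : g = 1 := hg
    rw [map_one]
    exact List.suffix_rfl
  | succ n ih =>
    intro g hg
    rcases mem_ball_succ.1 hg with hg | ⟨s, k, hs, hk, rfl⟩
    · exact ih g hg
    · rw [map_mul, Equiv.Perm.mul_apply, h.st_gen hs]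
      rcases suffix_push_or (j := f (π s (Θ k (base f x)).pt)) (ih k hk) (by simp) with h1 | h1
      · rw [← h1]
        by_cases h2 : f x = f (π s (Θ k (base f x)).pt)
        · simp [push, h2]
        · simp only [push, h2, if_false]
          exact List.suffix_cons _ _
      · exact h1

/-- Every subpath is reached through its parent. -/
theorem good (h : LiftData π S r b f Θ) (x : V) : ∀ n, ∀ g ∈ ball S n, ∀ u : List (Set V),
    u <:+ (Θ g (base f x)).st → 2 ≤ u.length → ∃ (k s : E), (s ∈ S ∨ s⁻¹ ∈ S) ∧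
      (Θ k (base f x)).st = u.tail ∧ (Θ s (Θ k (base f x))).st = u := by
  intro n
  induction n with
  | zero =>
    intro g hg u hu hlen
    rw [Pool.Agent.Lib.Helper67.BN.ball_zero] at hg
    obtain rfl : g = 1 := hg
    rw [map_one] at hu
    have h1 := hu.length_le
    have h2 : ((1 : Equiv.Perm (Lift f)) (base f x)).st.length = 1 := rfl
    omega
  | succ n ih =>
    intro g hg u hu hlen
    rcases mem_ball_succ.1 hg with hg | ⟨s, k, hs, hk, rfl⟩
    · exact ih g hg u hu hlen
    · rw [map_mul, Equiv.Perm.mul_apply, h.st_gen hs] at hu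
      rcases suffix_of_suffix_push hu (Lift.ne_nil _) with h1 | ⟨h1, h2⟩
      · exact ih k hk u h1 hlen
      · refine ⟨k, s, hs, ?_, ?_⟩
        · rw [h1, h2, List.tail_cons]
        · rw [h.st_gen hs, h1]

/-- Paths of the orbit. -/
def Reached (Θ : E →* Equiv.Perm (Lift f)) (x : V) (u : List (Set V)) : Prop :=
  ∃ g, (Θ g (base f x)).st = u

/-- Distances. -/
theorem dist (h : LiftData π S r b f Θ) (hS : Subgroup.closure S = ⊤) (x : V) : ∀ n,
    ∀ u : List (Set V), Reached Θ x u → u.length = n + 1 → ∀ z : Lift f, z.st = u →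
      ∃ g ∈ ball S (n * (r * b + 1) + r * b), Θ g (base f x) = z := by
  intro n
  induction n with
  | zero =>
    intro u hu hlen z hz
    obtain ⟨g, hg⟩ := hu
    obtain ⟨m, hm⟩ := exists_mem_ball hS g
    have h1 := h.root_suffix x m g hm
    rw [hg] at h1
    have h2 : [f x] = u := h1.eq_of_length (by rw [hlen]; rfl)
    have h3 : (base f x).st = z.st := by rw [hz, ← h2]; rfl
    obtain ⟨k, hk, h4⟩ := h.fiber h3
    exact ⟨k, ball_mono (by omega) hk, h4⟩
  | succ n ih =>
    intro u hu hlen z hz
    obtain ⟨g, hg⟩ := hu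
    obtain ⟨m, hm⟩ := exists_mem_ball hS g
    obtain ⟨k, s, hs, h1, h2⟩ := h.good x m g hm u (by rw [hg]) (by omega)
    obtain ⟨k', hk', h3⟩ := ih u.tail ⟨k, h1⟩ (by rw [List.length_tail, hlen]; rfl)
      (Θ k (base f x)) h1
    rw [← h2] at hz
    obtain ⟨c, hc, h4⟩ := h.fiber hz.symm
    refine ⟨c * (s * k'), ?_, ?_⟩
    · have h5 : s ∈ ball S 1 := ⟨[s], by simp, by simpa using hs, by simp⟩
      have h6 := ball_mul hc (ball_mul h5 hk')
      refine ball_mono (le_of_eq ?_) h6
      ring
    · rw [map_mul, map_mul, Equiv.Perm.mul_apply, Equiv.Perm.mul_apply, h3, h4]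

theorem length_gen (h : LiftData π S r b f Θ) {s : E} (hs : s ∈ S ∨ s⁻¹ ∈ S) (z : Lift f) :
    z.st.length ≤ (Θ s z).st.length + 1 := by
  rw [h.st_gen hs]
  rcases push_cases (f (π s z.pt)) z.st z.ne_nil with h1 | h1 | ⟨i, h1⟩
  · rw [h1]
    omega
  · rw [h1, List.length_cons]
    omega
  · have h2 := congrArg List.length h1
    rw [List.length_cons] at h2
    omega

theorem length_ball (h : LiftData π S r b f Θ) : ∀ n, ∀ g ∈ ball S n, ∀ z : Lift f,
    z.st.length ≤ (Θ g z).st.length + n := by
  intro n
  induction n with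
  | zero =>
    intro g hg z
    rw [Pool.Agent.Lib.Helper67.BN.ball_zero] at hg
    obtain rfl : g = 1 := hg
    rw [map_one]
    exact le_rfl
  | succ n ih =>
    intro g hg z
    rcases mem_ball_succ.1 hg with hg | ⟨s, k, hs, hk, rfl⟩
    · have := ih g hg z
      omega
    · have h1 := ih k hk z
      have h2 := h.length_gen hs (Θ k z)
      rw [map_mul, Equiv.Perm.mul_apply]
      omega

/-- One cannot leave a subtree quickly from far inside. -/
theorem stay (h : LiftData π S r b f Θ) : ∀ n, ∀ g ∈ ball S n, ∀ (z : Lift f)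
    (a : List (Set V)), a ≠ [] → a <:+ z.st → a.length + n ≤ z.st.length →
      a <:+ (Θ g z).st := by
  intro n
  induction n with
  | zero =>
    intro g hg z a _ ha _
    rw [Pool.Agent.Lib.Helper67.BN.ball_zero] at hg
    obtain rfl : g = 1 := hg
    rw [map_one]
    exact ha
  | succ n ih =>
    intro g hg z a ha0 ha hlen
    rcases mem_ball_succ.1 hg with hg | ⟨s, k, hs, hk, rfl⟩
    · exact ih g hg z a ha0 ha (by omega)
    · have h1 := ih k hk z a ha0 ha (by omega)
      rw [map_mul, Equiv.Perm.mul_apply, h.st_gen hs]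
      rcases suffix_push_or (j := f (π s (Θ k z).pt)) h1 ha0 with h2 | h2
      · have h3 := h.length_ball n k hk z
        rw [← h2] at h3
        omega
      · exact h2

theorem inv_apply' (Θ : E →* Equiv.Perm (Lift f)) (g : E) (z : Lift f) :
    Θ g⁻¹ (Θ g z) = z := by
  rw [← Equiv.Perm.mul_apply, ← map_mul, inv_mul_cancel, map_one, Equiv.Perm.one_apply]

/-- The points with a given path are few. -/
theorem fiber_card (h : LiftData π S r b f Θ) (a : List (Set V)) :
    {z : Lift f | z.st = a}.Finite ∧ {z : Lift f | z.st = a}.ncard ≤ b := by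
  have hself : ∀ x, x ∈ f x := fun x => h.pieces.ball_sub x (mem_orbitBall_self π S x _)
  rcases Set.eq_empty_or_nonempty {z : Lift f | z.st = a} with h1 | ⟨z0, hz0⟩
  · rw [h1]
    exact ⟨Set.finite_empty, by simp⟩
  · have h2 : ∀ z ∈ {z : Lift f | z.st = a}, z.pt ∈ f z0.pt := by
      intro z hz
      have h3 := z.head
      rw [show z.st = a from hz, ← show z0.st = a from hz0, z0.head] at h3
      rw [Option.some.inj h3]
      exact hself _
    have hinj : Set.InjOn Lift.pt {z : Lift f | z.st = a} := by
      intro z hz z' hz' hzz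
      exact Lift.ext' hzz ((show z.st = a from hz).trans (show z'.st = a from hz').symm)
    have h3 : Lift.pt '' {z : Lift f | z.st = a} ⊆ f z0.pt := by
      rintro _ ⟨z, hz, rfl⟩
      exact h2 z hz
    have h4 : {z : Lift f | z.st = a}.Finite :=
      Set.Finite.of_finite_image ((h.pieces.fin _).subset h3) hinj
    refine ⟨h4, ?_⟩
    rw [← Set.ncard_image_of_injOn hinj]
    exact (Set.ncard_le_ncard h3 (h.pieces.fin _)).trans (h.pieces.card _)

end LiftData

end Pool.Agent.Lib.H65D
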